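import Mathlib

/-!
Small trapezoids at a corner.
-/

set_option autoImplicit false

namespace Pool.Agent.ArcTrap

open Set Filter Topology

/-- abscissa of the third vertex -/
def x3 (f : ℝ → ℝ) (p q t u : ℝ) : ℝ := u + p * (u - t) - q * (f u - f t)

/-- ordinate of the third vertex -/
def y3 (f : ℝ → ℝ) (p q t u : ℝ) : ℝ := f u + q * (u - t) + p * (f u - f t)

/-- abscissa of the fourth vertex -/
def x4 (f : ℝ → ℝ) (p q t u : ℝ) : ℝ := t - p * (u - t) - q * (f u - f t)

/-- ordinate of the fourth vertex -/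
def y4 (f : ℝ → ℝ) (p q t u : ℝ) : ℝ := f t + q * (u - t) - p * (f u - f t)

/-- the data -/
structure Flat (f : ℝ → ℝ) (A p q : ℝ) : Prop where
  hA : 0 ≤ A
  hp : 0 ≤ p
  hq : 0 < q
  hf : ∀ x y, |f x - f y| ≤ A * |x - y|
  hC : 2 * p * A < q * (1 - A ^ 2)

variable {f : ℝ → ℝ} {A p q : ℝ}

theorem Flat.up (H : Flat f A p q) {s t : ℝ} (h : s ≤ t) : f t - f s ≤ A * (t - s) := by
  have := H.hf t s
  rw [abs_of_nonneg (show 0 ≤ t - s by linarith)] at this
  exact (abs_le.mp this).2

theorem Flat.dn (H : Flat f A p q) {s t : ℝ} (h : s ≤ t) : -(A * (t - s)) ≤ f t - f s := by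
  have := H.hf t s
  rw [abs_of_nonneg (show 0 ≤ t - s by linarith)] at this
  exact (abs_le.mp this).1

theorem Flat.pos (H : Flat f A p q) : 0 < q * (1 - A ^ 2) - 2 * p * A := by
  have := H.hC; linarith

/-- the fourth vertex, if not to the right of `a`, is above the height `f a` -/
theorem four_left (H : Flat f A p q) {a t u : ℝ} (hat : a ≤ t) (htu : t < u)
    (hx : x4 f p q t u ≤ a) : f a < y4 f p q t u := by
  unfold x4 at hx
  unfold y4
  have h1 := H.dn hat
  have h2 := H.up htu.le
  have h3 := H.dn htu.le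
  have h4 := mul_le_mul_of_nonneg_left h2 H.hq.le
  have h5 := mul_le_mul_of_nonneg_left h2 H.hp
  have h6 : t - a ≤ (p + q * A) * (u - t) := by linarith
  have h7 := mul_le_mul_of_nonneg_left h6 H.hA
  have h8 := mul_pos H.pos (show 0 < u - t by linarith)
  linarith

theorem three_right (H : Flat f A p q) {b t u : ℝ} (hub : u ≤ b) (htu : t < u)
    (hx : b ≤ x3 f p q t u) : f b < y3 f p q t u := by
  unfold x3 at hx
  unfold y3
  have h1 := H.up hub
  have h2 := H.up htu.le
  have h3 := H.dn htu.le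
  have h4 := mul_le_mul_of_nonneg_left h3 H.hq.le
  have h5 := mul_le_mul_of_nonneg_left h3 H.hp
  have h6 : b - u ≤ (p + q * A) * (u - t) := by linarith
  have h7 := mul_le_mul_of_nonneg_left h6 H.hA
  have h8 := mul_pos H.pos (show 0 < u - t by linarith)
  linarith

theorem four_right (H : Flat f A p q) {b t u : ℝ} (htb : t ≤ b) (htu : t < u)
    (hx : b ≤ x4 f p q t u) : f b < y4 f p q t u := by
  unfold x4 at hx
  unfold y4
  have h1 := H.up htb
  have h2 := H.up htu.le
  have h3 := H.dn htu.le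
  have h4 := mul_le_mul_of_nonneg_left h3 H.hq.le
  have h6 : b - t ≤ (q * A - p) * (u - t) := by linarith
  have h7 := mul_le_mul_of_nonneg_left h6 H.hA
  have h8 := mul_pos H.pos (show 0 < u - t by linarith)
  have h9 : f u - f t ≤ 0 := by
    have hd : 0 < u - t := by linarith
    have h10 : 0 ≤ p * (u - t) := mul_nonneg H.hp hd.le
    have h11 : q * (f u - f t) ≤ 0 := by linarith
    by_contra hcon
    push Not at hcon
    have := mul_pos H.hq hcon
    linarith
  have h10 := mul_nonneg H.hp (show 0 ≤ -(f u - f t) by linarith)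
  have h11 : 0 ≤ p * A * (u - t) := mul_nonneg (mul_nonneg H.hp H.hA) (by linarith)
  linarith

theorem three_left (H : Flat f A p q) {a t u : ℝ} (hau : a ≤ u) (htu : t < u)
    (hx : x3 f p q t u ≤ a) : f a < y3 f p q t u := by
  unfold x3 at hx
  unfold y3
  have h1 := H.dn hau
  have h2 := H.up htu.le
  have h4 := mul_le_mul_of_nonneg_left h2 H.hq.le
  have h6 : u - a ≤ (q * A - p) * (u - t) := by linarith
  have h7 := mul_le_mul_of_nonneg_left h6 H.hA
  have h8 := mul_pos H.pos (show 0 < u - t by linarith)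
  have h9 : 0 ≤ f u - f t := by
    have hd : 0 < u - t := by linarith
    have h10 : 0 ≤ p * (u - t) := mul_nonneg H.hp hd.le
    have h11 : 0 ≤ q * (f u - f t) := by linarith
    by_contra hcon
    push Not at hcon
    have := mul_pos H.hq (neg_pos.mpr hcon)
    linarith
  have h10 := mul_nonneg H.hp h9
  have h11 : 0 ≤ p * A * (u - t) := mul_nonneg (mul_nonneg H.hp H.hA) (by linarith)
  linarith

/-- the third vertex is above the graph -/
theorem three_above (H : Flat f A p q) {t u : ℝ} (htu : t ≤ u) :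
    f (x3 f p q t u) ≤ y3 f p q t u := by
  have h1 := H.hf (x3 f p q t u) u
  have h2 := H.up htu
  have h3 := H.dn htu
  have e : x3 f p q t u - u = p * (u - t) - q * (f u - f t) := by unfold x3; ring
  rw [e] at h1
  have h4 : |p * (u - t) - q * (f u - f t)| ≤ (p + q * A) * (u - t) := by
    have m1 := mul_le_mul_of_nonneg_left h2 H.hq.le
    have m2 := mul_le_mul_of_nonneg_left h3 H.hq.le
    have m3 := mul_nonneg H.hp (show 0 ≤ u - t by linarith)
    rw [abs_le]
    constructor <;> linarith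
  have h5 := mul_le_mul_of_nonneg_left h4 H.hA
  have h6 := (abs_le.mp (h1.trans h5)).2
  have h7 := mul_le_mul_of_nonneg_left h3 H.hp
  have h8 := mul_nonneg H.pos.le (show 0 ≤ u - t by linarith)
  unfold y3
  linarith

theorem four_above (H : Flat f A p q) {t u : ℝ} (htu : t ≤ u) :
    f (x4 f p q t u) ≤ y4 f p q t u := by
  have h1 := H.hf (x4 f p q t u) t
  have h2 := H.up htu
  have h3 := H.dn htu
  have e : x4 f p q t u - t = -(p * (u - t)) - q * (f u - f t) := by unfold x4; ring
  rw [e] at h1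
  have h4 : |-(p * (u - t)) - q * (f u - f t)| ≤ (p + q * A) * (u - t) := by
    have m1 := mul_le_mul_of_nonneg_left h2 H.hq.le
    have m2 := mul_le_mul_of_nonneg_left h3 H.hq.le
    have m3 := mul_nonneg H.hp (show 0 ≤ u - t by linarith)
    rw [abs_le]
    constructor <;> linarith
  have h5 := mul_le_mul_of_nonneg_left h4 H.hA
  have h6 := (abs_le.mp (h1.trans h5)).2
  have h7 := mul_le_mul_of_nonneg_left h2 H.hp
  have h8 := mul_nonneg H.pos.le (show 0 ≤ u - t by linarith)
  unfold y4
  linarith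

/-- sizes -/
theorem box_bounds (H : Flat f A p q) {a t u : ℝ} (hat : a ≤ t) (htu : t ≤ u) :
    x3 f p q t u - a ≤ (1 + p + q * A) * (u - a) ∧
    x4 f p q t u - a ≤ (1 + p + q * A) * (u - a) ∧
    |y3 f p q t u - f a| ≤ (A + q + p * A) * (u - a) ∧
    |y4 f p q t u - f a| ≤ (A + q + p * A) * (u - a) := by
  have hd : u - t ≤ u - a := by linarith
  have hd0 : 0 ≤ u - t := by linarith
  have h2 := H.up htu
  have h3 := H.dn htu
  have a1 := H.up (show a ≤ u by linarith)
  have a2 := H.dn (show a ≤ u by linarith)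
  have b1 := H.up hat
  have b2 := H.dn hat
  have m1 := mul_le_mul_of_nonneg_left h2 H.hq.le
  have m2 := mul_le_mul_of_nonneg_left h3 H.hq.le
  have n1 := mul_le_mul_of_nonneg_left h2 H.hp
  have n2 := mul_le_mul_of_nonneg_left h3 H.hp
  have k1 := mul_le_mul_of_nonneg_left hd H.hp
  have k2 := mul_le_mul_of_nonneg_left hd (mul_nonneg H.hq.le H.hA)
  have k3 := mul_le_mul_of_nonneg_left hd (mul_nonneg H.hp H.hA)
  have k4 := mul_le_mul_of_nonneg_left hd H.hq.le
  have k5 := mul_le_mul_of_nonneg_left (show t - a ≤ u - a by linarith) H.hA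
  have k6 := mul_nonneg H.hp hd0
  have k7 := mul_nonneg H.hq.le hd0
  have k8 : 0 ≤ q * (u - t) := k7
  unfold x3 x4 y3 y4
  refine ⟨by linarith, by linarith, ?_, ?_⟩
  · rw [abs_le]; constructor <;> linarith
  · rw [abs_le]; constructor <;> linarith

/-- **Corner with a non-vertical tangent.** -/
theorem corner_fin (H : Flat f A p q) {a m0 m1 : ℝ} {h : ℂ → ℝ} (hm : m0 < m1)
    (hder : ∀ η > 0, ∃ ρ > 0, ∀ x, a ≤ x → x ≤ a + ρ → |f x - f a - m0 * (x - a)| ≤ η * (x - a))
    (hlow : ∀ η > 0, ∃ ρ > 0, ∀ z : ℂ, a < z.re → z.re ≤ a + ρ → |z.im - f a| ≤ ρ →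
      f z.re ≤ z.im → z.im < f a + (m1 - η) * (z.re - a) → h z < 0)
    (hup : ∀ η > 0, ∃ ρ > 0, ∀ z : ℂ, a ≤ z.re → z.re ≤ a + ρ → |z.im - f a| ≤ ρ →
      f a + (m1 + η) * (z.re - a) < z.im → 0 < h z)
    (hleft : ∀ z : ℂ, z.re ≤ a → f a < z.im → 0 < h z) :
    ∃ r > 0, ∀ t u, a ≤ t → t ≤ u → a < u → u ≤ a + r →
      ¬ (0 ≤ h ⟨x3 f p q t u, y3 f p q t u⟩ ∧ h ⟨x4 f p q t u, y4 f p q t u⟩ ≤ 0) := by
  have hA := H.hA
  have hp := H.hp
  have hq := H.hq
  set D := m1 - m0 with hD
  have hDpos : 0 < D := by linarith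
  set E := 1 + p + q * A with hE
  have hEpos : 0 < E := by positivity
  set l := 1 + 2 * p with hl
  have hlpos : 0 < l := by positivity
  set c0 := q * (1 + m0 ^ 2) with hc0
  have hc0pos : 0 < c0 := by positivity
  set B := p + |m0| * q with hB
  have hB0 : 0 ≤ B := by positivity
  set G := (2 * E + 2 * l) / (D * l) with hG
  have hGpos : 0 < G := by positivity
  obtain ⟨η, hη0, hη1, hη2, hη3⟩ : ∃ η > 0, η ≤ D / 4 ∧ q * A * G * η ≤ 1 / 2 ∧
      η * (c0 * G + 1 + 2 * B) ≤ D / 4 := by
    refine ⟨min (D / 4) (min (1 / (2 * (q * A * G + 1))) (D / (4 * (c0 * G + 1 + 2 * B)))),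
      by positivity, min_le_left _ _, ?_, ?_⟩
    · have h1 : min (D / 4) (min (1 / (2 * (q * A * G + 1))) (D / (4 * (c0 * G + 1 + 2 * B))))
          ≤ 1 / (2 * (q * A * G + 1)) := (min_le_right _ _).trans (min_le_left _ _)
      have h2 : 0 ≤ q * A * G := by positivity
      calc q * A * G * _ ≤ q * A * G * (1 / (2 * (q * A * G + 1))) :=
            mul_le_mul_of_nonneg_left h1 h2
        _ ≤ 1 / 2 := by
            rw [mul_one_div, div_le_div_iff₀ (by positivity) (by positivity)]
            linarith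
    · have h1 : min (D / 4) (min (1 / (2 * (q * A * G + 1))) (D / (4 * (c0 * G + 1 + 2 * B))))
          ≤ D / (4 * (c0 * G + 1 + 2 * B)) := (min_le_right _ _).trans (min_le_right _ _)
      have h2 : 0 < c0 * G + 1 + 2 * B := by positivity
      calc _ ≤ D / (4 * (c0 * G + 1 + 2 * B)) * (c0 * G + 1 + 2 * B) :=
            mul_le_mul_of_nonneg_right h1 h2.le
        _ = D / 4 := by field_simp
  obtain ⟨ρ1, hρ1, hd⟩ := hder η hη0
  obtain ⟨ρ2, hρ2, hlo⟩ := hlow η hη0
  obtain ⟨ρ3, hρ3, hu⟩ := hup η hη0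
  set F := E + (A + q + p * A) with hF
  have hFpos : 0 < F := by positivity
  refine ⟨min ρ1 (min (ρ2 / F) (ρ3 / F)), by positivity, ?_⟩
  rintro t u hat htu hau hur ⟨h3, h4⟩
  set S := u - a with hS
  have hSpos : 0 < S := by linarith
  have hS1 : S ≤ ρ1 := by
    have := min_le_left ρ1 (min (ρ2 / F) (ρ3 / F)); linarith
  have hS2 : F * S ≤ ρ2 := by
    have h1 : S ≤ ρ2 / F := by
      have := (min_le_right ρ1 (min (ρ2 / F) (ρ3 / F))).trans (min_le_left _ _); linarith
    rw [le_div_iff₀ hFpos] at h1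
    linarith
  have hS3 : F * S ≤ ρ3 := by
    have h1 : S ≤ ρ3 / F := by
      have := (min_le_right ρ1 (min (ρ2 / F) (ρ3 / F))).trans (min_le_right _ _); linarith
    rw [le_div_iff₀ hFpos] at h1
    linarith
  obtain ⟨bx3, bx4, by3, by4⟩ := box_bounds H hat htu
  have hES : E * S ≤ F * S := by
    apply mul_le_mul_of_nonneg_right _ hSpos.le
    rw [hF]
    have : 0 ≤ A + q + p * A := by positivity
    linarith
  have hES' : (A + q + p * A) * S ≤ F * S := by
    apply mul_le_mul_of_nonneg_right _ hSpos.le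
    rw [hF]; linarith
  -- the fourth vertex is to the right of `a`
  have hx4 : a < x4 f p q t u := by
    by_contra hcon
    push Not at hcon
    rcases eq_or_lt_of_le htu with h5 | h5
    · have : x4 f p q t u = t := by unfold x4; rw [← h5]; ring
      rw [this] at hcon
      linarith
    · have := hleft ⟨x4 f p q t u, y4 f p q t u⟩ hcon (four_left H hat h5 hcon)
      linarith
  have hdx : x3 f p q t u - x4 f p q t u = l * (u - t) := by
    unfold x3 x4; rw [hl]; ring
  have hdx0 : 0 ≤ u - t := by linarith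
  have hx3 : a < x3 f p q t u := by
    have := mul_nonneg hlpos.le hdx0
    linarith
  have hY4 : y4 f p q t u ≤ f a + (m1 + η) * (x4 f p q t u - a) := by
    by_contra hcon
    push Not at hcon
    have := hu ⟨x4 f p q t u, y4 f p q t u⟩ hx4.le (show x4 f p q t u ≤ a + ρ3 by linarith)
      (show |y4 f p q t u - f a| ≤ ρ3 by linarith) hcon
    linarith
  have hY3 : f a + (m1 - η) * (x3 f p q t u - a) ≤ y3 f p q t u := by
    by_contra hcon
    push Not at hcon
    have := hlo ⟨x3 f p q t u, y3 f p q t u⟩ hx3 (show x3 f p q t u ≤ a + ρ2 by linarith)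
      (show |y3 f p q t u - f a| ≤ ρ2 by linarith) (three_above H htu) hcon
    linarith
  -- deviations
  have du := abs_le.mp (hd u (by linarith) (by linarith))
  have dt := abs_le.mp (hd t hat (by linarith))
  set eu := f u - f a - m0 * (u - a) with heu
  set et := f t - f a - m0 * (t - a) with het
  have hηt : η * (t - a) ≤ η * S := mul_le_mul_of_nonneg_left (by linarith) hη0.le
  have eY3 : y3 f p q t u - f a - m0 * (x3 f p q t u - a)
      = eu + c0 * (u - t) + (p + m0 * q) * (eu - et) := by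
    rw [heu, het, hc0]; unfold y3 x3; ring
  have eY4 : y4 f p q t u - f a - m0 * (x4 f p q t u - a)
      = et + c0 * (u - t) + (-p + m0 * q) * (eu - et) := by
    rw [heu, het, hc0]; unfold y4 x4; ring
  have hδ : |eu - et| ≤ 2 * η * S := by
    rw [abs_le]; constructor <;> linarith [du.1, du.2, dt.1, dt.2]
  have hBδ : (p + m0 * q) * (eu - et) ≤ B * (2 * η * S) := by
    calc (p + m0 * q) * (eu - et) ≤ |(p + m0 * q) * (eu - et)| := le_abs_self _
      _ = |p + m0 * q| * |eu - et| := abs_mul _ _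
      _ ≤ B * (2 * η * S) := by
          apply mul_le_mul _ hδ (abs_nonneg _) hB0
          rw [hB]
          refine (abs_add_le _ _).trans ?_
          rw [abs_mul, abs_of_nonneg hp, abs_of_pos hq]
  -- first inequality: the base is short
  have i1 : D * (l * (u - t)) ≤ η * (2 * E + 2 * l) * S := by
    have j1 : (D - η) * (x3 f p q t u - a) ≤ (D + η) * (x4 f p q t u - a) + l * (eu - et) := by
      have : y3 f p q t u - f a - m0 * (x3 f p q t u - a)
          - (y4 f p q t u - f a - m0 * (x4 f p q t u - a)) = l * (eu - et) := by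
        rw [eY3, eY4, hl]; ring
      rw [hD]
      linarith
    have j2 : l * (eu - et) ≤ l * (2 * η * S) :=
      mul_le_mul_of_nonneg_left ((le_abs_self _).trans hδ) hlpos.le
    have j3 := mul_le_mul_of_nonneg_left bx3 hη0.le
    have j4 := mul_le_mul_of_nonneg_left bx4 hη0.le
    rw [← hdx]
    linarith
  have i2 : u - t ≤ η * G * S := by
    have : u - t = D * (l * (u - t)) / (D * l) := by field_simp
    rw [this, div_le_iff₀ (by positivity), hG]
    calc D * (l * (u - t)) ≤ η * (2 * E + 2 * l) * S := i1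
      _ = η * ((2 * E + 2 * l) / (D * l)) * S * (D * l) := by field_simp
  -- second inequality
  have i3 : (D - η) * (x3 f p q t u - a) ≤ c0 * (u - t) + η * S * (1 + 2 * B) := by
    have : (D - η) * (x3 f p q t u - a) ≤ eu + c0 * (u - t) + (p + m0 * q) * (eu - et) := by
      rw [← eY3, hD]; linarith
    linarith [du.2]
  have i4 : S - q * A * (u - t) ≤ x3 f p q t u - a := by
    have h5 := mul_le_mul_of_nonneg_left (H.up htu) hq.le
    have h6 := mul_nonneg hp hdx0
    unfold x3
    linarith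
  have i5 : (1 - q * A * (η * G)) * S ≤ x3 f p q t u - a := by
    have := mul_le_mul_of_nonneg_left i2 (mul_nonneg hq.le hA)
    linarith
  have i6 : (D - η) * ((1 - q * A * (η * G)) * S) ≤ c0 * (η * G * S) + η * S * (1 + 2 * B) := by
    have k1 := mul_le_mul_of_nonneg_left i5 (show 0 ≤ D - η by linarith)
    have k2 := mul_le_mul_of_nonneg_left i2 hc0pos.le
    linarith
  have i7 : (D - η) * (1 - q * A * (η * G)) ≤ η * (c0 * G + 1 + 2 * B) := by
    have : (D - η) * (1 - q * A * (η * G)) * S ≤ η * (c0 * G + 1 + 2 * B) * S := by linarith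
    exact le_of_mul_le_mul_right this hSpos
  have i8 : (3 / 4 * D) * (1 / 2) ≤ (D - η) * (1 - q * A * (η * G)) := by
    apply mul_le_mul (by linarith) (by linarith) (by norm_num) (by linarith)
  linarith

/-- **Corner with a vertical tangent.** -/
theorem corner_inf (H : Flat f A p q) {a : ℝ} {h : ℂ → ℝ}
    (hlow : ∀ K : ℝ, ∃ ρ > 0, ∀ z : ℂ, a < z.re → z.re ≤ a + ρ → |z.im - f a| ≤ ρ →
      f z.re ≤ z.im → z.im < f a + K * (z.re - a) → h z < 0)
    (hleft : ∀ z : ℂ, z.re ≤ a → f a < z.im → 0 < h z) :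
    ∃ r > 0, ∀ t u, a ≤ t → t ≤ u → a < u → u ≤ a + r →
      ¬ (0 ≤ h ⟨x3 f p q t u, y3 f p q t u⟩ ∧ h ⟨x4 f p q t u, y4 f p q t u⟩ ≤ 0) := by
  have hA := H.hA
  have hp := H.hp
  have hq := H.hq
  set l := 1 + 2 * p with hl
  have hl1 : 1 ≤ l := by linarith
  have hlpos : 0 < l := by positivity
  set K := q + A * (1 + 2 * p) * (1 + q * A) + 1 with hK
  obtain ⟨ρ, hρ, hlo⟩ := hlow K
  set F := (1 + p + q * A) + (A + q + p * A) with hF
  have hFpos : 0 < F := by positivity
  refine ⟨ρ / F, by positivity, ?_⟩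
  rintro t u hat htu hau hur ⟨h3, h4⟩
  set S := u - a with hS
  have hSpos : 0 < S := by linarith
  have hS2 : F * S ≤ ρ := by
    have h1 : S ≤ ρ / F := by linarith
    rw [le_div_iff₀ hFpos] at h1
    linarith
  obtain ⟨bx3, bx4, by3, by4⟩ := box_bounds H hat htu
  have hES : (1 + p + q * A) * S ≤ F * S := by
    apply mul_le_mul_of_nonneg_right _ hSpos.le
    rw [hF]
    have : 0 ≤ A + q + p * A := by positivity
    linarith
  have hES' : (A + q + p * A) * S ≤ F * S := by
    apply mul_le_mul_of_nonneg_right _ hSpos.le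
    rw [hF]
    have : 0 ≤ 1 + p + q * A := by positivity
    linarith
  have hx4 : a < x4 f p q t u := by
    by_contra hcon
    push Not at hcon
    rcases eq_or_lt_of_le htu with h5 | h5
    · have : x4 f p q t u = t := by unfold x4; rw [← h5]; ring
      rw [this] at hcon
      linarith
    · have := hleft ⟨x4 f p q t u, y4 f p q t u⟩ hcon (four_left H hat h5 hcon)
      linarith
  have hdx : x3 f p q t u - x4 f p q t u = l * (u - t) := by
    unfold x3 x4; rw [hl]; ring
  have hdx0 : 0 ≤ u - t := by linarith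
  have hx3 : a < x3 f p q t u := by
    have := mul_nonneg hlpos.le hdx0
    linarith
  have hY3 : f a + K * (x3 f p q t u - a) ≤ y3 f p q t u := by
    by_contra hcon
    push Not at hcon
    have := hlo ⟨x3 f p q t u, y3 f p q t u⟩ hx3 (show x3 f p q t u ≤ a + ρ by linarith)
      (show |y3 f p q t u - f a| ≤ ρ by linarith) (three_above H htu) hcon
    linarith
  set X := x3 f p q t u - a with hX
  have hXpos : 0 < X := by linarith
  have i1 : u - t ≤ X := by
    have h5 : l * (u - t) ≤ X := by linarith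
    have h6 : 1 * (u - t) ≤ l * (u - t) := mul_le_mul_of_nonneg_right hl1 hdx0
    linarith
  have i2 : S - q * A * (u - t) ≤ X := by
    have h5 := mul_le_mul_of_nonneg_left (H.up htu) hq.le
    have h6 := mul_nonneg hp hdx0
    rw [hX]
    unfold x3
    linarith
  have i3 : S ≤ (1 + q * A) * X := by
    have := mul_le_mul_of_nonneg_left i1 (mul_nonneg hq.le hA)
    linarith
  have i4 : y3 f p q t u - f a ≤ q * (u - t) + A * (1 + 2 * p) * S := by
    have h5 := H.up (show a ≤ u by linarith)
    have h6 := mul_le_mul_of_nonneg_left (H.up htu) hp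
    have h7 : p * (A * (u - t)) ≤ p * (A * S) :=
      mul_le_mul_of_nonneg_left (mul_le_mul_of_nonneg_left (by linarith) hA) hp
    have h8 : 0 ≤ p * (A * S) := by positivity
    unfold y3
    linarith
  have i5 : K * X ≤ q * X + A * (1 + 2 * p) * ((1 + q * A) * X) := by
    have k1 := mul_le_mul_of_nonneg_left i1 hq.le
    have k2 := mul_le_mul_of_nonneg_left i3 (show 0 ≤ A * (1 + 2 * p) by positivity)
    linarith
  rw [hK] at i5
  linarith

end Pool.Agent.ArcTrap
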