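import Pool.Agent.Lib.MP_2fd4e2_co.Arc.Full

/-!
A Lipschitz graph closed up by an arbitrary path: the trapezoid.
-/

set_option autoImplicit false

namespace Pool.Agent.ArcTrap

open Complex Set Filter Topology

variable {f : ℝ → ℝ} {A p q : ℝ} {a b : ℝ} {c : ℝ → ℂ} {h : ℂ → ℝ}

theorem box2 (H : Flat f A p q) {t u : ℝ} (hat : a ≤ t) (htu : t ≤ u) :
    |x3 f p q t u - a| ≤ (1 + p + q * A) * (u - a) ∧
    |x4 f p q t u - a| ≤ (1 + p + q * A) * (u - a) ∧
    |y3 f p q t u - f a| ≤ (A + q + p * A) * (u - a) ∧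
    |y4 f p q t u - f a| ≤ (A + q + p * A) * (u - a) := by
  obtain ⟨b1, b2, b3, b4⟩ := box_bounds H hat htu
  have hd : u - t ≤ u - a := by linarith
  have hd0 : 0 ≤ u - t := by linarith
  have h2 := H.up htu
  have m1 := mul_le_mul_of_nonneg_left h2 H.hq.le
  have k1 := mul_le_mul_of_nonneg_left hd H.hp
  have k2 := mul_le_mul_of_nonneg_left hd (mul_nonneg H.hq.le H.hA)
  have k6 := mul_nonneg H.hp hd0
  have k7 := mul_nonneg H.hp (show 0 ≤ u - a by linarith)
  refine ⟨?_, ?_, b3, b4⟩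
  · rw [abs_le]
    refine ⟨?_, b1⟩
    unfold x3
    linarith
  · rw [abs_le]
    refine ⟨?_, b2⟩
    unfold x4
    linarith

/-- no small trapezoid at the corner has the third vertex not below and the fourth not above -/
theorem Arc.corner (S : Arc f A p q a b c h) :
    ∃ r > 0, ∀ t u, a ≤ t → t < u → u ≤ a + r →
      ¬ (0 ≤ h ⟨x3 f p q t u, y3 f p q t u⟩ ∧ h ⟨x4 f p q t u, y4 f p q t u⟩ ≤ 0) := by
  obtain ⟨m, k1, k2, hder, hosc, _, hcone⟩ := S.corP
  have H := S.H
  have hA := H.hA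
  have hp := H.hp
  have hq := H.hq
  obtain ⟨ρ1, hρ1, hL⟩ := S.lower hder hcone
  obtain ⟨ρ2, hρ2, hU⟩ := S.upper hder hcone
  have am := abs_nonneg m
  have ak1 := abs_nonneg k1
  have ak2 := abs_nonneg k2
  set l := 1 + 2 * p with hl
  have hlpos : 0 < l := by positivity
  set σ := l - q * (k1 - k2) with hσ
  have hσpos : 0 < σ := by linarith
  set B := p + |m| * q with hB
  have hB0 : 0 ≤ B := by positivity
  -- constants
  set C1 := |k1| + |k2| + 2 * (|k1| + |k2|) * B + 2 * l * |m| with hC1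
  have hC10 : 0 ≤ C1 := by positivity
  set C2 := |m| + 2 * (p * |m| + q) + |k1| * (1 + 2 * B) with hC2
  have hC20 : 0 ≤ C2 := by positivity
  set n := 1 + m ^ 2 with hn
  have hn1 : 1 ≤ n := by rw [hn]; nlinarith [sq_nonneg m]
  set G := C2 + |k1| * (q * n) * (C1 / σ) with hG
  have hG0 : 0 ≤ G := by positivity
  obtain ⟨η, hη0, hη1, hη2⟩ : ∃ η > 0, η * (G + 1) ≤ 1 / 2 ∧ η * ((1 + 2 * B) * A + 1) ≤ 1 / 2 := by
    refine ⟨min (1 / (2 * (G + 1))) (1 / (2 * ((1 + 2 * B) * A + 1))), by positivity, ?_, ?_⟩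
    · calc _ ≤ 1 / (2 * (G + 1)) * (G + 1) :=
            mul_le_mul_of_nonneg_right (min_le_left _ _) (by positivity)
        _ = 1 / 2 := by field_simp
    · calc _ ≤ 1 / (2 * ((1 + 2 * B) * A + 1)) * ((1 + 2 * B) * A + 1) :=
            mul_le_mul_of_nonneg_right (min_le_right _ _) (by positivity)
        _ = 1 / 2 := by field_simp
  obtain ⟨ρ3, hρ3, hd⟩ := hder η hη0
  set F := (1 + p + q * A) + (A + q + p * A) with hF
  have hFpos : 0 < F := by positivity
  refine ⟨min ρ3 (min (ρ1 / F) (ρ2 / F)), by positivity, ?_⟩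
  rintro t u hat htu hur ⟨h3, h4⟩
  set s := u - a with hs
  have hspos : 0 < s := by linarith
  have hs1 : s ≤ ρ3 := by
    have := min_le_left ρ3 (min (ρ1 / F) (ρ2 / F)); linarith
  have hs2 : F * s ≤ ρ1 := by
    have h1 : s ≤ ρ1 / F := by
      have := (min_le_right ρ3 (min (ρ1 / F) (ρ2 / F))).trans (min_le_left _ _); linarith
    rw [le_div_iff₀ hFpos] at h1
    linarith
  have hs3 : F * s ≤ ρ2 := by
    have h1 : s ≤ ρ2 / F := by
      have := (min_le_right ρ3 (min (ρ1 / F) (ρ2 / F))).trans (min_le_right _ _); linarith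
    rw [le_div_iff₀ hFpos] at h1
    linarith
  obtain ⟨bx3, bx4, by3, by4⟩ := box2 H hat htu.le
  have hES : (1 + p + q * A) * s ≤ F * s := by
    apply mul_le_mul_of_nonneg_right _ hspos.le
    rw [hF]
    have : 0 ≤ A + q + p * A := by positivity
    linarith
  have hES' : (A + q + p * A) * s ≤ F * s := by
    apply mul_le_mul_of_nonneg_right _ hspos.le
    rw [hF]
    have : 0 ≤ 1 + p + q * A := by positivity
    linarith
  -- deviations
  have du := abs_le.mp (hd u (by linarith) (by linarith))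
  have dt := abs_le.mp (hd t hat (by linarith))
  set eu := f u - f a - m * (u - a) with heu
  set et := f t - f a - m * (t - a) with het
  have hηt : η * (t - a) ≤ η * s := mul_le_mul_of_nonneg_left (by linarith) hη0.le
  have hηs : 0 ≤ η * s := by positivity
  set d := u - t with hdd
  have hdpos : 0 < d := by linarith
  have aeu : |eu| ≤ η * s := by rw [abs_le]; exact du
  have aet : |et| ≤ η * s := by rw [abs_le]; constructor <;> linarith [dt.1, dt.2]
  have aδ : |eu - et| ≤ 2 * (η * s) := by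
    have := abs_sub eu et; linarith
  -- coordinates
  have eG3 : Gg f a m ⟨x3 f p q t u, y3 f p q t u⟩ = q * n * d + eu + (p + m * q) * (eu - et) := by
    rw [heu, het, hn, hdd]; simp only [Gg]; unfold y3 x3; ring
  have eG4 : Gg f a m ⟨x4 f p q t u, y4 f p q t u⟩ = q * n * d + et + (-p + m * q) * (eu - et) := by
    rw [heu, het, hn, hdd]; simp only [Gg]; unfold y4 x4; ring
  have eD3 : Dd f a m ⟨x3 f p q t u, y3 f p q t u⟩ = n * s + m * eu + p * n * d
      + (p * m - q) * (eu - et) := by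
    rw [heu, het, hn, hdd, hs]; simp only [Dd]; unfold y3 x3; ring
  have eDD : Dd f a m ⟨x3 f p q t u, y3 f p q t u⟩ - Dd f a m ⟨x4 f p q t u, y4 f p q t u⟩
      = l * (n * d + m * (eu - et)) := by
    rw [heu, het, hn, hdd, hl]; simp only [Dd]; unfold y3 x3 y4 x4; ring
  -- absolute values of the error terms
  have bB1 : |p + m * q| ≤ B := by
    rw [hB]
    refine (abs_add_le _ _).trans ?_
    rw [abs_mul, abs_of_nonneg hp, abs_of_pos hq]
  have bB2 : |-p + m * q| ≤ B := by
    rw [hB]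
    refine (abs_add_le _ _).trans ?_
    rw [abs_mul, abs_neg, abs_of_nonneg hp, abs_of_pos hq]
  have bB3 : |p * m - q| ≤ p * |m| + q := by
    refine (abs_sub _ _).trans ?_
    rw [abs_mul, abs_of_nonneg hp, abs_of_pos hq]
  have mulb : ∀ x y X Y : ℝ, |x| ≤ X → |y| ≤ Y → |x * y| ≤ X * Y := by
    intro x y X Y hx hy
    rw [abs_mul]
    exact mul_le_mul hx hy (abs_nonneg _) ((abs_nonneg _).trans hx)
  have r3 : |(p + m * q) * (eu - et)| ≤ B * (2 * (η * s)) := mulb _ _ _ _ bB1 aδ
  have r4 : |(-p + m * q) * (eu - et)| ≤ B * (2 * (η * s)) := mulb _ _ _ _ bB2 aδ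
  have r5 : |(p * m - q) * (eu - et)| ≤ (p * |m| + q) * (2 * (η * s)) := mulb _ _ _ _ bB3 aδ
  have r6 : |m * (eu - et)| ≤ |m| * (2 * (η * s)) := mulb _ _ _ _ le_rfl aδ
  have r7 : |m * eu| ≤ |m| * (η * s) := mulb _ _ _ _ le_rfl aeu
  -- the fourth vertex
  have K4 : k2 * Gg f a m ⟨x4 f p q t u, y4 f p q t u⟩ ≤ Dd f a m ⟨x4 f p q t u, y4 f p q t u⟩ := by
    by_contra hcon
    push Not at hcon
    have := hU ⟨x4 f p q t u, y4 f p q t u⟩ (bx4.trans (hES.trans hs3)) (by4.trans (hES'.trans hs3))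
      hcon
    linarith
  have K3 : Dd f a m ⟨x3 f p q t u, y3 f p q t u⟩ ≤ k1 * Gg f a m ⟨x3 f p q t u, y3 f p q t u⟩ := by
    by_contra hcon
    push Not at hcon
    have := hL ⟨x3 f p q t u, y3 f p q t u⟩ (bx3.trans (hES.trans hs2)) (by3.trans (hES'.trans hs2))
      hcon (by
        rcases lt_or_ge a (x3 f p q t u) with h5 | h5
        · left
          exact ⟨h5, three_above' H htu⟩
        · right
          refine ⟨h5, ?_⟩
          rw [eG3]
          have h6 : s ≤ q * A * d := by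
            have h7 := mul_le_mul_of_nonneg_left (H.up htu.le) hq.le
            have h8 := mul_nonneg hp hdpos.le
            unfold x3 at h5
            rw [hs, hdd]
            rw [hdd] at h8
            linarith
          have h7 : eu + (p + m * q) * (eu - et) ≥ -(η * ((1 + 2 * B) * s)) := by
            have := (abs_le.mp r3).1
            have := (abs_le.mp aeu).1
            linarith
          have h8 : η * ((1 + 2 * B) * s) ≤ η * ((1 + 2 * B) * (q * A * d)) :=
            mul_le_mul_of_nonneg_left (mul_le_mul_of_nonneg_left h6 (by positivity)) hη0.le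
          have h9 : η * ((1 + 2 * B) * (q * A * d)) ≤ 1 / 2 * (q * d) := by
            have h10 : η * ((1 + 2 * B) * A) ≤ 1 / 2 := by linarith
            have h11 := mul_le_mul_of_nonneg_right h10 (show 0 ≤ q * d by positivity)
            linarith
          have h10 : q * d ≤ q * n * d := by
            have := mul_le_mul_of_nonneg_left hn1 (show 0 ≤ q * d by positivity)
            linarith
          have h11 : 0 < q * d := by positivity
          linarith)
    linarith
  set g3 := Gg f a m ⟨x3 f p q t u, y3 f p q t u⟩ with hg3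
  set g4 := Gg f a m ⟨x4 f p q t u, y4 f p q t u⟩ with hg4
  set d3 := Dd f a m ⟨x3 f p q t u, y3 f p q t u⟩ with hd3
  set d4 := Dd f a m ⟨x4 f p q t u, y4 f p q t u⟩ with hd4
  -- the base is short
  have i1 : σ * (n * d) ≤ C1 * (η * s) := by
    have j1 : l * (n * d + m * (eu - et)) ≤ k1 * g3 - k2 * g4 := by rw [← eDD]; linarith
    have j2 : k1 * g3 - k2 * g4 = (k1 - k2) * (q * n * d) + (k1 * eu + k1 * ((p + m * q) * (eu - et)))
        - (k2 * et + k2 * ((-p + m * q) * (eu - et))) := by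
      rw [eG3, eG4]; ring
    have j3 := (abs_le.mp (mulb k1 eu |k1| (η * s) le_rfl aeu)).2
    have j4 := (abs_le.mp (mulb k1 _ |k1| _ le_rfl r3)).2
    have j5 := (abs_le.mp (mulb k2 et |k2| (η * s) le_rfl aet)).1
    have j6 := (abs_le.mp (mulb k2 _ |k2| _ le_rfl r4)).1
    have j7 := (abs_le.mp r6).1
    have j8 := mul_le_mul_of_nonneg_left j7 hlpos.le
    rw [hσ, hC1]
    linarith
  have i2 : d ≤ C1 / σ * (η * s) := by
    have j1 : d ≤ n * d := by
      have := mul_le_mul_of_nonneg_right hn1 hdpos.le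
      linarith
    have j2 : n * d ≤ C1 / σ * (η * s) := by
      have : C1 / σ * (η * s) = C1 * (η * s) / σ := by ring
      rw [this, le_div_iff₀ hσpos]
      linarith
    linarith
  have i3 : n * s ≤ |k1| * (q * n * d) + C2 * (η * s) := by
    have j1 : n * s + m * eu + p * n * d + (p * m - q) * (eu - et) ≤ k1 * g3 := by
      rw [← eD3]; exact K3
    have j2 : k1 * g3 ≤ |k1| * (q * n * d + η * s + B * (2 * (η * s))) := by
      refine (le_abs_self _).trans ?_
      rw [abs_mul]
      apply mul_le_mul_of_nonneg_left _ ak1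
      rw [eG3]
      have j3 : |q * n * d + eu + (p + m * q) * (eu - et)| ≤ |q * n * d| + |eu|
          + |(p + m * q) * (eu - et)| := abs_add_three _ _ _
      have j4 : |q * n * d| = q * n * d := abs_of_pos (by positivity)
      linarith
    have j5 := (abs_le.mp r7).1
    have j6 := (abs_le.mp r5).1
    have j7 : 0 ≤ p * n * d := by positivity
    rw [hC2]
    linarith
  have i4 : |k1| * (q * n * d) ≤ |k1| * (q * n) * (C1 / σ) * (η * s) := by
    have := mul_le_mul_of_nonneg_left i2 (show 0 ≤ |k1| * (q * n) by positivity)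
    linarith
  have i5 : s ≤ G * (η * s) := by
    have j1 : s ≤ n * s := by
      have := mul_le_mul_of_nonneg_right hn1 hspos.le
      linarith
    have j2 : G * (η * s) = C2 * (η * s) + |k1| * (q * n) * (C1 / σ) * (η * s) := by
      rw [hG]; ring
    linarith
  have i6 : G * (η * s) ≤ 1 / 2 * s := by
    have := mul_le_mul_of_nonneg_right hη1 hspos.le
    linarith
  linarith

/-- the leg at the corner starts outside -/
theorem Arc.legNear (S : Arc f A p q a b c h) :
    ∃ r > 0, ∀ u, a < u → u ≤ a + r → 0 < h ⟨x4 f p q a u, y4 f p q a u⟩ := by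
  obtain ⟨m, k1, k2, hder, _, hpos, hcone⟩ := S.corP
  have H := S.H
  have hA := H.hA
  have hp := H.hp
  have hq := H.hq
  obtain ⟨ρ2, hρ2, hU⟩ := S.upper hder hcone
  have am := abs_nonneg m
  have ak2 := abs_nonneg k2
  set n := 1 + m ^ 2 with hn
  have hn1 : 1 ≤ n := by rw [hn]; nlinarith [sq_nonneg m]
  set E := |(p * m + q) + k2 * (-p + m * q)| with hE
  have hE0 : 0 ≤ E := abs_nonneg _
  set η := (q * k2 + p) / (2 * (E + 1)) with hη
  have hη0 : 0 < η := by positivity
  have hη1 : η * (E + 1) = (q * k2 + p) / 2 := by rw [hη]; field_simp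
  obtain ⟨ρ3, hρ3, hd⟩ := hder η hη0
  set F := (1 + p + q * A) + (A + q + p * A) with hF
  have hFpos : 0 < F := by positivity
  refine ⟨min ρ3 (ρ2 / F), by positivity, ?_⟩
  intro u hau hur
  set s := u - a with hs
  have hspos : 0 < s := by linarith
  have hs1 : s ≤ ρ3 := by
    have := min_le_left ρ3 (ρ2 / F); linarith
  have hs3 : F * s ≤ ρ2 := by
    have h1 : s ≤ ρ2 / F := by
      have := min_le_right ρ3 (ρ2 / F); linarith
    rw [le_div_iff₀ hFpos] at h1
    linarith
  obtain ⟨bx3, bx4, by3, by4⟩ := box2 H (le_refl a) hau.le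
  have hES : (1 + p + q * A) * s ≤ F * s := by
    apply mul_le_mul_of_nonneg_right _ hspos.le
    rw [hF]
    have : 0 ≤ A + q + p * A := by positivity
    linarith
  have hES' : (A + q + p * A) * s ≤ F * s := by
    apply mul_le_mul_of_nonneg_right _ hspos.le
    rw [hF]
    have : 0 ≤ 1 + p + q * A := by positivity
    linarith
  have du := hd u hau.le (by linarith)
  set eu := f u - f a - m * (u - a) with heu
  apply hU _ (bx4.trans (hES.trans hs3)) (by4.trans (hES'.trans hs3))
  have e1 : Dd f a m ⟨x4 f p q a u, y4 f p q a u⟩ - k2 * Gg f a m ⟨x4 f p q a u, y4 f p q a u⟩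
      = -(n * (q * k2 + p) * s) - ((p * m + q) + k2 * (-p + m * q)) * eu := by
    rw [heu, hn, hs]; simp only [Dd, Gg]; unfold y4 x4; ring
  have e2 : |((p * m + q) + k2 * (-p + m * q)) * eu| ≤ E * (η * s) := by
    rw [abs_mul]
    exact mul_le_mul_of_nonneg_left du hE0
  have e3 := (abs_le.mp e2).1
  have e4 : E * (η * s) ≤ (q * k2 + p) / 2 * s := by
    have : E * (η * s) + η * s = η * (E + 1) * s := by ring
    rw [hη1] at this
    have : 0 ≤ η * s := by positivity
    linarith
  have e5 : (q * k2 + p) * s ≤ n * (q * k2 + p) * s := by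
    have := mul_le_mul_of_nonneg_right hn1 (show 0 ≤ (q * k2 + p) * s by positivity)
    linarith
  have e6 : 0 < (q * k2 + p) * s := by positivity
  linarith

theorem Arc.endpoints (S : Arc f A p q a b c h) {z : ℂ} (hz : f z.re < z.im) {t : ℝ}
    (ht : t ∈ Icc a b) (hct : c t = z) : t ∈ Ioo a b := by
  rcases eq_or_lt_of_le ht.1 with h6 | h6
  · rw [← h6, S.hca] at hct
    rw [← hct] at hz
    simp at hz
  · rcases eq_or_lt_of_le ht.2 with h7 | h7
    · rw [h7, S.hcb] at hct
      rw [← hct] at hz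
      simp at hz
    · exact ⟨h6, h7⟩

theorem Arc.sideP (S : Arc f A p q a b c h) {u : ℝ} (hau : a < u) (hub : u ≤ b) :
    0 < h ⟨x4 f p q a u, y4 f p q a u⟩ := by
  obtain ⟨r, hr, hnear⟩ := S.legNear
  have hf := S.H.cont'
  set u' := min u (a + r) with hu'
  have h1 : a < u' := lt_min hau (by linarith)
  have h2 : u' ≤ u := min_le_left _ _
  have h3 : u' ≤ a + r := min_le_right _ _
  have hS : IsPreconnected ((fun v : ℝ => (⟨x4 f p q a v, y4 f p q a v⟩ : ℂ)) '' Icc u' u) := by
    apply isPreconnected_Icc.image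
    apply Continuous.continuousOn
    apply cmk'
    · unfold x4; fun_prop
    · unfold y4; fun_prop
  refine (sign_const S.hhc hS ?_ ⟨u', ⟨le_rfl, h2⟩, rfl⟩ ⟨u, ⟨h2, le_rfl⟩, rfl⟩).2
    (hnear u' h1 h3)
  rintro _ ⟨v, hv, rfl⟩ h0
  have hab' : f (x4 f p q a v) < y4 f p q a v := four_above' S.H (by linarith [hv.1])
  rcases S.hz _ h0 with ⟨t, ht, hct⟩ | ⟨k1, k2, k3⟩
  · exact S.legP t (S.endpoints hab' ht hct) v ⟨by linarith [hv.1], by linarith [hv.2]⟩ hct
  · simp only at k3
    linarith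

theorem Jset_mir {z : ℂ} (hz : mir z ∈ Jset f a b c) :
    z ∈ Jset (fun x => f (-x)) (-b) (-a) (fun t => mir (c (-t))) := by
  rcases hz with ⟨t, ht, h1⟩ | ⟨h1, h2, h3⟩
  · left
    refine ⟨-t, ⟨by linarith [ht.2], by linarith [ht.1]⟩, ?_⟩
    simp only [neg_neg, h1, mir_mir]
  · right
    simp only [mir_re, mir_im] at h1 h2 h3
    exact ⟨by linarith, by linarith, h3⟩

theorem x3_mir (t u : ℝ) : x3 (fun x => f (-x)) p q (-u) (-t) = -x4 f p q t u := by
  unfold x3 x4; simp only [neg_neg]; ring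
theorem x4_mir (t u : ℝ) : x4 (fun x => f (-x)) p q (-u) (-t) = -x3 f p q t u := by
  unfold x3 x4; simp only [neg_neg]; ring
theorem y3_mir (t u : ℝ) : y3 (fun x => f (-x)) p q (-u) (-t) = y4 f p q t u := by
  unfold y3 y4; simp only [neg_neg]; ring
theorem y4_mir (t u : ℝ) : y4 (fun x => f (-x)) p q (-u) (-t) = y3 f p q t u := by
  unfold y3 y4; simp only [neg_neg]; ring

theorem Arc.mirror (S : Arc f A p q a b c h) :
    Arc (fun x => f (-x)) A p q (-b) (-a) (fun t => mir (c (-t))) (fun z => h (mir z)) where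
  H := ⟨S.H.hA, S.H.hp, S.H.hq, fun x y => by
    have := S.H.hf (-x) (-y)
    rwa [show -x - -y = -(x - y) by ring, abs_neg] at this, S.H.hC⟩
  hab := by have := S.hab; linarith
  hcc := continuous_mir.comp (S.hcc.comp continuous_neg)
  hca := by
    simp only [neg_neg, S.hcb]
    apply Complex.ext <;> simp
  hcb := by
    simp only [neg_neg, S.hca]
    apply Complex.ext <;> simp
  hav := by
    rintro t ht ⟨h1, h2, h3⟩
    simp only [mir_re, mir_im, neg_neg] at h1 h2 h3
    exact S.hav (-t) ⟨by linarith [ht.2], by linarith [ht.1]⟩ ⟨by linarith, by linarith, h3⟩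
  hhc := S.hhc.comp continuous_mir
  hz := fun z hz => Jset_mir (S.hz _ hz)
  hmid := by
    have e0 : (-b + -a) / 2 = -((a + b) / 2) := by ring
    filter_upwards [S.hmid] with y hy
    rw [e0]
    simp only [neg_neg]
    have e1 : mir ⟨-((a + b) / 2), f ((a + b) / 2) + y⟩ = ⟨(a + b) / 2, f ((a + b) / 2) + y⟩ := by
      apply Complex.ext <;> simp
    have e2 : mir ⟨-((a + b) / 2), f ((a + b) / 2) - y⟩ = ⟨(a + b) / 2, f ((a + b) / 2) - y⟩ := by
      apply Complex.ext <;> simp
    rw [e1, e2]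
    exact hy
  legP := by
    intro t ht u hu heq
    have h1 := x4_mir (f := f) (p := p) (q := q) (-u) b
    have h2 := y4_mir (f := f) (p := p) (q := q) (-u) b
    rw [neg_neg] at h1 h2
    rw [h1, h2] at heq
    apply S.legQ (-t) ⟨by linarith [ht.2], by linarith [ht.1]⟩ (-u)
      ⟨by linarith [hu.2], by linarith [hu.1]⟩
    have h3 := congrArg mir heq
    rw [mir_mir] at h3
    rw [h3]
    apply Complex.ext <;> simp
  legQ := by
    intro t ht u hu heq
    have h1 := x3_mir (f := f) (p := p) (q := q) a (-u)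
    have h2 := y3_mir (f := f) (p := p) (q := q) a (-u)
    rw [neg_neg] at h1 h2
    rw [h1, h2] at heq
    apply S.legP (-t) ⟨by linarith [ht.2], by linarith [ht.1]⟩ (-u)
      ⟨by linarith [hu.2], by linarith [hu.1]⟩
    have h3 := congrArg mir heq
    rw [mir_mir] at h3
    rw [h3]
    apply Complex.ext <;> simp
  corP := S.corQ
  corQ := by
    have := S.corP
    simpa using this

theorem mir_mk (x y : ℝ) : mir ⟨-x, y⟩ = ⟨x, y⟩ := by
  apply Complex.ext <;> simp

theorem Arc.corner' (S : Arc f A p q a b c h) :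
    ∃ r > 0, ∀ t u, t < u → u ≤ b → b - r ≤ t →
      ¬ (0 ≤ h ⟨x4 f p q t u, y4 f p q t u⟩ ∧ h ⟨x3 f p q t u, y3 f p q t u⟩ ≤ 0) := by
  obtain ⟨r, hr, hh⟩ := S.mirror.corner
  refine ⟨r, hr, ?_⟩
  intro t u htu hub hbr
  have := hh (-u) (-t) (by linarith) (by linarith) (by linarith)
  rwa [x3_mir, x4_mir, y3_mir, y4_mir, mir_mk, mir_mk] at this

theorem Arc.sideQ (S : Arc f A p q a b c h) {t : ℝ} (hat : a ≤ t) (htb : t < b) :
    0 < h ⟨x3 f p q t b, y3 f p q t b⟩ := by
  have := S.mirror.sideP (u := -t) (by linarith) (by linarith)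
  rwa [x4_mir, y4_mir, mir_mk] at this

theorem Arc.c3 (S : Arc f A p q a b c h) :
    Continuous (fun z : ℝ × ℝ => h ⟨x3 f p q z.1 z.2, y3 f p q z.1 z.2⟩) := by
  have hf := S.H.cont'
  apply S.hhc.comp
  apply cmk'
  · unfold x3; fun_prop
  · unfold y3; fun_prop

theorem Arc.c4 (S : Arc f A p q a b c h) :
    Continuous (fun z : ℝ × ℝ => h ⟨x4 f p q z.1 z.2, y4 f p q z.1 z.2⟩) := by
  have hf := S.H.cont'
  apply S.hhc.comp
  apply cmk'
  · unfold x4; fun_prop
  · unfold y4; fun_prop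

theorem Arc.nearP (S : Arc f A p q a b c h) {r : ℝ}
    (hr : 0 < r) : ∃ e > 0, ∀ t u, a ≤ t → t ≤ a + e → a + r ≤ u → u ≤ b →
      0 < h ⟨x4 f p q t u, y4 f p q t u⟩ := by
  have h1 : ∀ᶠ t in 𝓝 a, ∀ u ∈ Icc (a + r) b, 0 < h ⟨x4 f p q t u, y4 f p q t u⟩ := by
    apply isCompact_Icc.eventually_forall_of_forall_eventually
    intro u hu
    have h2 := S.sideP (u := u) (by linarith [hu.1]) hu.2
    exact (S.c4.tendsto (a, u)).eventually (lt_mem_nhds h2)
  obtain ⟨e, he, h2⟩ := Metric.eventually_nhds_iff.mp h1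
  refine ⟨e / 2, by positivity, ?_⟩
  intro t u ht1 ht2 hu1 hu2
  apply h2 _ u ⟨hu1, hu2⟩
  rw [Real.dist_eq, abs_of_nonneg (by linarith)]
  linarith

theorem Arc.nearQ (S : Arc f A p q a b c h) {r : ℝ}
    (hr : 0 < r) : ∃ e > 0, ∀ t u, u ≤ b → b - e ≤ u → t ≤ b - r → a ≤ t →
      0 < h ⟨x3 f p q t u, y3 f p q t u⟩ := by
  obtain ⟨e, he, hh⟩ := S.mirror.nearP hr
  refine ⟨e, he, ?_⟩
  intro t u h1 h2 h3 h4
  have := hh (-u) (-t) (by linarith) (by linarith) (by linarith) (by linarith)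
  rwa [x4_mir, y4_mir, mir_mk] at this

/-- the vertices are close to the graph when the base is short -/
theorem close3 (H : Flat f A p q) {t u : ℝ} (htu : t ≤ u) :
    |x3 f p q t u - u| ≤ (p + q * A) * (u - t) ∧
    y3 f p q t u - f (x3 f p q t u) ≤ (q + p * A + A * (p + q * A)) * (u - t) := by
  have h1 := H.hf (x3 f p q t u) u
  have h2 := H.up htu
  have h3 := H.dn htu
  have e : x3 f p q t u - u = p * (u - t) - q * (f u - f t) := by unfold x3; ring
  have m1 := mul_le_mul_of_nonneg_left h2 H.hq.le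
  have m2 := mul_le_mul_of_nonneg_left h3 H.hq.le
  have m3 := mul_nonneg H.hp (show 0 ≤ u - t by linarith)
  have h4 : |x3 f p q t u - u| ≤ (p + q * A) * (u - t) := by
    rw [e, abs_le]
    constructor <;> linarith
  refine ⟨h4, ?_⟩
  have h5 := mul_le_mul_of_nonneg_left h4 H.hA
  have h6 := (abs_le.mp (h1.trans h5)).1
  have h7 := mul_le_mul_of_nonneg_left h2 H.hp
  unfold y3
  linarith

theorem close4 (H : Flat f A p q) {t u : ℝ} (htu : t ≤ u) :
    |x4 f p q t u - t| ≤ (p + q * A) * (u - t) ∧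
    y4 f p q t u - f (x4 f p q t u) ≤ (q + p * A + A * (p + q * A)) * (u - t) := by
  have h1 := H.hf (x4 f p q t u) t
  have h2 := H.up htu
  have h3 := H.dn htu
  have e : x4 f p q t u - t = -(p * (u - t)) - q * (f u - f t) := by unfold x4; ring
  have m1 := mul_le_mul_of_nonneg_left h2 H.hq.le
  have m2 := mul_le_mul_of_nonneg_left h3 H.hq.le
  have m3 := mul_nonneg H.hp (show 0 ≤ u - t by linarith)
  have h4 : |x4 f p q t u - t| ≤ (p + q * A) * (u - t) := by
    rw [e, abs_le]
    constructor <;> linarith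
  refine ⟨h4, ?_⟩
  have h5 := mul_le_mul_of_nonneg_left h4 H.hA
  have h6 := (abs_le.mp (h1.trans h5)).1
  have h7 := mul_le_mul_of_nonneg_left h3 H.hp
  unfold y4
  linarith

/-- small trapezoids away from the corners -/
theorem Arc.small (S : Arc f A p q a b c h) {ε : ℝ} (hε : 0 < ε) :
    ∃ w > 0, ∀ t u, a + ε ≤ t → t < u → u ≤ b - ε → u - t ≤ w →
      h ⟨x3 f p q t u, y3 f p q t u⟩ < 0 ∧ h ⟨x4 f p q t u, y4 f p q t u⟩ < 0 := by
  obtain ⟨ρ, hρ, hst⟩ := S.strip (a' := a + ε / 2) (b' := b - ε / 2) (by linarith) (by linarith)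
  have hA := S.H.hA
  have hp := S.H.hp
  have hq := S.H.hq
  set L := (p + q * A) + (q + p * A + A * (p + q * A)) with hL
  have hLpos : 0 < L := by positivity
  refine ⟨min (ε / 2) ρ / L, by positivity, ?_⟩
  intro t u h1 h2 h3 h4
  have h5 : L * (u - t) ≤ min (ε / 2) ρ := by
    rw [le_div_iff₀ hLpos] at h4
    linarith
  have hd : 0 < u - t := by linarith
  have h6 : L * (u - t) ≤ ε / 2 := h5.trans (min_le_left _ _)
  have h7 : L * (u - t) ≤ ρ := h5.trans (min_le_right _ _)
  have h8 : (p + q * A) * (u - t) ≤ L * (u - t) := by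
    apply mul_le_mul_of_nonneg_right _ hd.le
    rw [hL]
    have : 0 ≤ q + p * A + A * (p + q * A) := by positivity
    linarith
  have h9 : (q + p * A + A * (p + q * A)) * (u - t) ≤ L * (u - t) := by
    apply mul_le_mul_of_nonneg_right _ hd.le
    rw [hL]
    have : 0 ≤ p + q * A := by positivity
    linarith
  obtain ⟨c1, c2⟩ := close3 S.H h2.le
  obtain ⟨d1, d2⟩ := close4 S.H h2.le
  have c3 := three_above' S.H h2
  have d3 := four_above' S.H h2
  have c4 := abs_le.mp c1
  have d4 := abs_le.mp d1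
  constructor
  · have := (hst (x3 f p q t u) (by linarith) (by linarith)
      (y3 f p q t u - f (x3 f p q t u)) (by linarith) (by linarith)).1
    rwa [show f (x3 f p q t u) + (y3 f p q t u - f (x3 f p q t u)) = y3 f p q t u by ring] at this
  · have := (hst (x4 f p q t u) (by linarith) (by linarith)
      (y4 f p q t u - f (x4 f p q t u)) (by linarith) (by linarith)).1
    rwa [show f (x4 f p q t u) + (y4 f p q t u - f (x4 f p q t u)) = y4 f p q t u by ring] at this

/-- **The trapezoid.** -/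
theorem Arc.main (S : Arc f A p q a b c h) :
    ∃ t u, a ≤ t ∧ t < u ∧ u ≤ b ∧
      (∃ s ∈ Ioo a b, c s = ⟨x3 f p q t u, y3 f p q t u⟩) ∧
      (∃ s ∈ Ioo a b, c s = ⟨x4 f p q t u, y4 f p q t u⟩) := by
  have hab := S.hab
  have H := S.H
  have hba : 0 < b - a := by linarith
  obtain ⟨r1, hr1, hP⟩ := S.corner
  obtain ⟨r2, hr2, hQ⟩ := S.corner'
  obtain ⟨e1, he1, nP⟩ := S.nearP hr1
  obtain ⟨e2, he2, nQ⟩ := S.nearQ hr2
  obtain ⟨ε, hε, hε1, hε2, hε3⟩ : ∃ ε > 0, ε ≤ e1 ∧ ε ≤ e2 ∧ ε ≤ (b - a) / 2 :=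
    ⟨min e1 (min e2 ((b - a) / 2)), by positivity, min_le_left _ _,
      (min_le_right _ _).trans (min_le_left _ _), (min_le_right _ _).trans (min_le_right _ _)⟩
  obtain ⟨w, hw, hsm⟩ := S.small (ε := ε / 2) (by positivity)
  -- the level of the bottom side
  obtain ⟨y0, hy0, hy1, hy2⟩ : ∃ y0 > 0, y0 ≤ 1 / 2 ∧ y0 * (b - a) ≤ w := by
    refine ⟨min (1 / 2) (w / (b - a)), by positivity, min_le_left _ _, ?_⟩
    calc _ ≤ w / (b - a) * (b - a) := mul_le_mul_of_nonneg_right (min_le_right _ _) hba.le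
      _ = w := by field_simp
  set τ : ℝ → ℝ := fun x => a + ε + (b - a - 2 * ε) * x with hτ
  set Y : ℝ → ℝ := fun y => y0 + (1 - y0) * y with hY
  set T : ℝ × ℝ → ℝ := fun z => (1 - Y z.2) * τ z.1 + Y z.2 * a with hT
  set U : ℝ × ℝ → ℝ := fun z => (1 - Y z.2) * τ z.1 + Y z.2 * b with hU
  have hTc : Continuous T := by rw [hT, hτ, hY]; fun_prop
  have hUc : Continuous U := by rw [hU, hτ, hY]; fun_prop
  have hτI : ∀ x ∈ Icc (0 : ℝ) 1, a + ε ≤ τ x ∧ τ x ≤ b - ε := by
    intro x hx
    have k : 0 ≤ b - a - 2 * ε := by linarith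
    have k1 := mul_nonneg k hx.1
    have k2 := mul_le_mul_of_nonneg_left hx.2 k
    simp only [hτ]
    constructor <;> linarith
  have hYI : ∀ y ∈ Icc (0 : ℝ) 1, y0 ≤ Y y ∧ Y y ≤ 1 := by
    intro y hy
    have k : 0 ≤ 1 - y0 := by linarith
    have k1 := mul_nonneg k hy.1
    have k2 := mul_le_mul_of_nonneg_left hy.2 k
    simp only [hY]
    constructor <;> linarith
  have hTU : ∀ z, U z - T z = Y z.2 * (b - a) := by
    intro z; simp only [hT, hU]; ring
  obtain ⟨x, hx, y, hy, h3, h4⟩ := four_sign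
    (F3 := fun z => h ⟨x3 f p q (T z) (U z), y3 f p q (T z) (U z)⟩)
    (F4 := fun z => h ⟨x4 f p q (T z) (U z), y4 f p q (T z) (U z)⟩)
    (S.c3.comp (hTc.prodMk hUc)) (S.c4.comp (hTc.prodMk hUc))
    (by
      intro x hx
      obtain ⟨k1, k2⟩ := hτI x hx
      have t1 : T (x, 0) = τ x - y0 * (τ x - a) := by simp only [hT, hY]; ring
      have t2 : U (x, 0) = τ x + y0 * (b - τ x) := by simp only [hU, hY]; ring
      have t3 := hTU (x, 0)
      have t4 : Y 0 = y0 := by simp only [hY]; ring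
      simp only [t4] at t3
      have t5 : 0 < y0 * (b - a) := by positivity
      have t6 : y0 * (τ x - a) ≤ 1 / 2 * (τ x - a) :=
        mul_le_mul_of_nonneg_right hy1 (by linarith)
      have t7 : y0 * (b - τ x) ≤ 1 / 2 * (b - τ x) :=
        mul_le_mul_of_nonneg_right hy1 (by linarith)
      exact hsm (T (x, 0)) (U (x, 0)) (by rw [t1]; linarith) (by linarith) (by rw [t2]; linarith)
        (by linarith))
    (by
      intro x hx
      have t0 : Y 1 = 1 := by simp only [hY]; ring
      have t1 : T (x, 1) = a := by simp only [hT, t0]; ring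
      have t2 : U (x, 1) = b := by simp only [hU, t0]; ring
      simp only [t1, t2]
      exact ⟨S.sideQ le_rfl hab, S.sideP hab le_rfl⟩)
    (by
      rintro y hy ⟨k3, k4⟩
      obtain ⟨n1, n2⟩ := hYI y hy
      have t1 : T (0, y) = a + (1 - Y y) * ε := by simp only [hT, hτ]; ring
      have t2 : U (0, y) = a + (1 - Y y) * ε + Y y * (b - a) := by simp only [hU, hτ]; ring
      simp only [t1, t2] at k3 k4
      have m1 : 0 ≤ (1 - Y y) * ε := mul_nonneg (by linarith) hε.le
      have m2 : 0 < Y y * (b - a) := mul_pos (by linarith) hba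
      have m3 : (1 - Y y) * ε ≤ ε := by nlinarith
      have m5 : a + (1 - Y y) * ε + Y y * (b - a) ≤ b := by
        have : (1 - Y y) * ε ≤ (1 - Y y) * (b - a) :=
          mul_le_mul_of_nonneg_left (by linarith) (by linarith)
        linarith
      rcases le_or_gt (a + (1 - Y y) * ε + Y y * (b - a)) (a + r1) with h5 | h5
      · exact hP _ _ (by linarith) (by linarith) h5 ⟨k3, k4⟩
      · have := nP (a + (1 - Y y) * ε) (a + (1 - Y y) * ε + Y y * (b - a)) (by linarith)
          (by linarith) h5.le m5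
        linarith)
    (by
      rintro y hy ⟨k3, k4⟩
      obtain ⟨n1, n2⟩ := hYI y hy
      have t1 : T (1, y) = b - (1 - Y y) * ε - Y y * (b - a) := by simp only [hT, hτ]; ring
      have t2 : U (1, y) = b - (1 - Y y) * ε := by simp only [hU, hτ]; ring
      simp only [t1, t2] at k3 k4
      have m1 : 0 ≤ (1 - Y y) * ε := mul_nonneg (by linarith) hε.le
      have m2 : 0 < Y y * (b - a) := mul_pos (by linarith) hba
      have m3 : (1 - Y y) * ε ≤ ε := by nlinarith
      have m5 : a ≤ b - (1 - Y y) * ε - Y y * (b - a) := by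
        have : (1 - Y y) * ε ≤ (1 - Y y) * (b - a) :=
          mul_le_mul_of_nonneg_left (by linarith) (by linarith)
        linarith
      rcases le_or_gt (b - r2) (b - (1 - Y y) * ε - Y y * (b - a)) with h5 | h5
      · exact hQ _ _ (by linarith) (by linarith) h5 ⟨k4, k3⟩
      · have := nQ (b - (1 - Y y) * ε - Y y * (b - a)) (b - (1 - Y y) * ε) (by linarith)
          (by linarith) h5.le m5
        linarith)
  obtain ⟨k1, k2⟩ := hτI x hx
  obtain ⟨n1, n2⟩ := hYI y hy
  set t := T (x, y) with ht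
  set u := U (x, y) with hu
  have htu : t < u := by
    have e : u - t = Y y * (b - a) := hTU (x, y)
    have := mul_pos (show 0 < Y y by linarith) hba
    linarith
  have hat : a ≤ t := by
    have e : t - a = (1 - Y y) * (τ x - a) := by rw [ht]; simp only [hT]; ring
    have := mul_nonneg (show 0 ≤ 1 - Y y by linarith) (show 0 ≤ τ x - a by linarith)
    linarith
  have hub : u ≤ b := by
    have e : b - u = (1 - Y y) * (b - τ x) := by rw [hu]; simp only [hU]; ring
    have := mul_nonneg (show 0 ≤ 1 - Y y by linarith) (show 0 ≤ b - τ x by linarith)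
    linarith
  have ab3 := three_above' H htu
  have ab4 := four_above' H htu
  refine ⟨t, u, hat, htu, hub, ?_, ?_⟩
  · rcases S.hz _ h3 with ⟨s, hs, hcs⟩ | ⟨_, _, k5⟩
    · exact ⟨s, S.endpoints (z := ⟨x3 f p q t u, y3 f p q t u⟩) ab3 hs hcs, hcs⟩
    · simp only at k5
      linarith
  · rcases S.hz _ h4 with ⟨s, hs, hcs⟩ | ⟨_, _, k5⟩
    · exact ⟨s, S.endpoints (z := ⟨x4 f p q t u, y4 f p q t u⟩) ab4 hs hcs, hcs⟩
    · simp only at k5
      linarith

end Pool.Agent.ArcTrap
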