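import Pool.Agent.Lib.MP_2fd4e2_co.Arc.Fin
import Pool.Agent.Lib.MP_2fd4e2_co.Lip.Inscribe

/-!
From the data of the final statement to those of the topological argument.
-/

set_option autoImplicit false

namespace Pool.Agent.ArcTrap

open Complex Set Filter Topology Pool.Agent.LipTrap

theorem coord (ρ α m : ℝ) : (ρ : ℂ) * exp (α * I) * (1 + m * I)
    = ⟨ρ * (Real.cos α - m * Real.sin α), ρ * (Real.sin α + m * Real.cos α)⟩ := by
  rw [Complex.exp_mul_I]
  apply Complex.ext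
  · simp only [Complex.mul_re, Complex.mul_im, Complex.add_re, Complex.add_im, Complex.ofReal_re,
      Complex.ofReal_im, Complex.cos_ofReal_re, Complex.cos_ofReal_im, Complex.sin_ofReal_re,
      Complex.sin_ofReal_im, Complex.I_re, Complex.I_im, Complex.one_re, Complex.one_im]
    ring
  · simp only [Complex.mul_re, Complex.mul_im, Complex.add_re, Complex.add_im, Complex.ofReal_re,
      Complex.ofReal_im, Complex.cos_ofReal_re, Complex.cos_ofReal_im, Complex.sin_ofReal_re,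
      Complex.sin_ofReal_im, Complex.I_re, Complex.I_im, Complex.one_re, Complex.one_im]
    ring

theorem coord' (ρ α m : ℝ) : (ρ : ℂ) * exp (-(α * I)) * (1 + m * I)
    = ⟨ρ * (Real.cos α + m * Real.sin α), ρ * (-Real.sin α + m * Real.cos α)⟩ := by
  have := coord ρ (-α) m
  rw [Real.cos_neg, Real.sin_neg] at this
  rw [show -((α : ℂ) * I) = ((-α : ℝ) : ℂ) * I by push_cast; ring, this]
  apply Complex.ext
  · show _ = _
    ring
  · show _ = _
    ring

theorem kap (l φ : ℝ) : (l : ℂ) * exp (φ * I) = ⟨l * Real.cos φ, l * Real.sin φ⟩ := by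
  have := coord l φ 0
  simp only [Complex.ofReal_zero, zero_mul, add_zero, mul_one, sub_zero] at this
  exact this

theorem kap' (l φ : ℝ) : (l : ℂ) * exp (-(φ * I)) = ⟨l * Real.cos φ, -(l * Real.sin φ)⟩ := by
  have := coord' l φ 0
  simp only [Complex.ofReal_zero, zero_mul, add_zero, mul_one] at this
  rw [this]
  apply Complex.ext
  · rfl
  · show _ = _
    ring

/-- a vector in the sector satisfies the cone inequalities -/
theorem sector {ρ α α1 α2 m : ℝ} (hρ : 0 < ρ) (h1 : 0 < α1) (h2 : α2 < Real.pi)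
    (hα : α ∈ Icc α1 α2) {x y : ℝ} (hx : x = ρ * (Real.cos α - m * Real.sin α))
    (hy : y = ρ * (Real.sin α + m * Real.cos α)) :
    0 < y - m * x ∧ Real.cot α2 * (y - m * x) ≤ x + m * y ∧
      x + m * y ≤ Real.cot α1 * (y - m * x) := by
  have hs : 0 < Real.sin α := Real.sin_pos_of_pos_of_lt_pi (by linarith [hα.1]) (by linarith [hα.2])
  have hs1 : 0 < Real.sin α1 :=
    Real.sin_pos_of_pos_of_lt_pi h1 (by linarith [hα.1, hα.2])
  have hs2 : 0 < Real.sin α2 :=
    Real.sin_pos_of_pos_of_lt_pi (by linarith [hα.1, hα.2]) h2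
  have hn : 0 < ρ * (1 + m ^ 2) := by positivity
  have e1 : y - m * x = ρ * (1 + m ^ 2) * Real.sin α := by rw [hx, hy]; ring
  have e2 : x + m * y = ρ * (1 + m ^ 2) * Real.cos α := by rw [hx, hy]; ring
  have k1 : 0 ≤ Real.sin (α - α1) :=
    Real.sin_nonneg_of_nonneg_of_le_pi (by linarith [hα.1]) (by linarith [hα.2])
  have k2 : 0 ≤ Real.sin (α2 - α) :=
    Real.sin_nonneg_of_nonneg_of_le_pi (by linarith [hα.2]) (by linarith [hα.1])
  rw [Real.sin_sub] at k1 k2
  refine ⟨?_, ?_, ?_⟩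
  · rw [e1]; positivity
  · rw [e1, e2, Real.cot_eq_cos_div_sin]
    have : Real.cos α2 / Real.sin α2 * Real.sin α ≤ Real.cos α := by
      rw [div_mul_eq_mul_div, div_le_iff₀ hs2]
      linarith
    calc _ = ρ * (1 + m ^ 2) * (Real.cos α2 / Real.sin α2 * Real.sin α) := by ring
      _ ≤ _ := mul_le_mul_of_nonneg_left this hn.le
  · rw [e1, e2, Real.cot_eq_cos_div_sin]
    have : Real.cos α ≤ Real.cos α1 / Real.sin α1 * Real.sin α := by
      rw [div_mul_eq_mul_div, le_div_iff₀ hs1]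
      linarith
    calc _ ≤ ρ * (1 + m ^ 2) * (Real.cos α1 / Real.sin α1 * Real.sin α) :=
          mul_le_mul_of_nonneg_left this hn.le
      _ = _ := by ring

theorem cot_conditions {φ l α1 α2 : ℝ} (hφ : 0 < φ) (hl : 0 < l) (hs : 0 < Real.sin φ)
    (h1 : 0 < α2) (h2 : α2 < Real.pi - φ)
    (hosc : Real.cot α1 - Real.cot α2 < (1 + 2 * l * Real.cos φ) / (l * Real.sin φ)) :
    l * Real.sin φ * (Real.cot α1 - Real.cot α2) < 1 + 2 * (l * Real.cos φ) ∧
      0 < l * Real.sin φ * Real.cot α2 + l * Real.cos φ := by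
  have hq : 0 < l * Real.sin φ := mul_pos hl hs
  have hs2 : 0 < Real.sin α2 := Real.sin_pos_of_pos_of_lt_pi h1 (by linarith)
  constructor
  · rw [lt_div_iff₀ hq] at hosc
    linarith
  · have h3 : 0 < Real.sin (φ + α2) := Real.sin_pos_of_pos_of_lt_pi (by linarith) (by linarith)
    rw [Real.sin_add] at h3
    rw [Real.cot_eq_cos_div_sin]
    have : l * Real.sin φ * (Real.cos α2 / Real.sin α2) + l * Real.cos φ
        = l * (Real.sin φ * Real.cos α2 + Real.cos φ * Real.sin α2) / Real.sin α2 := by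
      field_simp
    rw [this]
    positivity

theorem der_of_hasDeriv {f : ℝ → ℝ} {a b m : ℝ} (hab : a < b)
    (hm : HasDerivWithinAt f m (Icc a b) a) {F : ℝ → ℝ} (hF : ∀ x ∈ Icc a b, F x = f x) :
    Der F a m := by
  intro η hη
  rw [hasDerivWithinAt_iff_isLittleO, Asymptotics.isLittleO_iff] at hm
  have h1 := hm hη
  obtain ⟨ε, hε, h2⟩ := Metric.mem_nhdsWithin_iff.mp h1
  have hba : 0 < b - a := by linarith
  refine ⟨min (ε / 2) (b - a), by positivity, ?_⟩
  intro x hx1 hx2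
  have h3 := min_le_left (ε / 2) (b - a)
  have h4 := min_le_right (ε / 2) (b - a)
  have hxI : x ∈ Icc a b := ⟨hx1, by linarith⟩
  have h5 : ‖f x - f a - (x - a) • m‖ ≤ η * ‖x - a‖ := h2 ⟨by
    rw [Metric.mem_ball, Real.dist_eq, abs_of_nonneg (by linarith)]; linarith, hxI⟩
  rw [smul_eq_mul, Real.norm_eq_abs, Real.norm_eq_abs,
    abs_of_nonneg (show 0 ≤ x - a by linarith)] at h5
  rw [hF x hxI, hF a ⟨le_rfl, hab.le⟩]
  rwa [mul_comm (x - a) m] at h5

theorem der_of_hasDeriv' {f : ℝ → ℝ} {a b m : ℝ} (hab : a < b)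
    (hm : HasDerivWithinAt f m (Icc a b) b) {F : ℝ → ℝ} (hF : ∀ x ∈ Icc a b, F x = f x) :
    Der (fun x => F (-x)) (-b) (-m) := by
  intro η hη
  rw [hasDerivWithinAt_iff_isLittleO, Asymptotics.isLittleO_iff] at hm
  have h1 := hm hη
  obtain ⟨ε, hε, h2⟩ := Metric.mem_nhdsWithin_iff.mp h1
  have hba : 0 < b - a := by linarith
  refine ⟨min (ε / 2) (b - a), by positivity, ?_⟩
  intro x hx1 hx2
  have h3 := min_le_left (ε / 2) (b - a)
  have h4 := min_le_right (ε / 2) (b - a)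
  have hxI : -x ∈ Icc a b := ⟨by linarith, by linarith⟩
  have h5 : ‖f (-x) - f b - (-x - b) • m‖ ≤ η * ‖-x - b‖ := h2 ⟨by
    rw [Metric.mem_ball, Real.dist_eq, abs_of_nonpos (by linarith)]; linarith, hxI⟩
  rw [smul_eq_mul, Real.norm_eq_abs, Real.norm_eq_abs,
    abs_of_nonpos (show -x - b ≤ 0 by linarith)] at h5
  simp only [neg_neg]
  rw [hF (-x) hxI, hF b ⟨hab.le, le_rfl⟩]
  have e1 : f (-x) - f b - -m * (x - -b) = f (-x) - f b - (-x - b) * m := by ring
  have e2 : η * (x - -b) = η * -(-x - b) := by ring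
  rw [e1, e2]
  exact h5

end Pool.Agent.ArcTrap
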