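import Pool.Agent.Lib.FPK.Kak

/-!
A zero lemma on the unit square with mixed boundary conditions.
-/

set_option autoImplicit false

namespace Pool.Agent.ArcTrap

open Set Filter Topology

/-- clamping to `[0, 1]` -/
noncomputable def c01 (x : ℝ) : ℝ := max 0 (min x 1)

theorem c01_mem (x : ℝ) : c01 x ∈ Icc (0 : ℝ) 1 :=
  ⟨le_max_left _ _, max_le zero_le_one (min_le_right _ _)⟩

theorem c01_of_mem {x : ℝ} (hx : x ∈ Icc (0 : ℝ) 1) : c01 x = x := by
  unfold c01
  rw [min_eq_left hx.2, max_eq_right hx.1]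

theorem continuous_c01 : Continuous c01 := by
  unfold c01; fun_prop

theorem c01_fix {x h : ℝ} (hx : x = c01 (x + h)) (h0 : x = 0 → 0 < h) (h1 : x = 1 → h < 0) :
    h = 0 := by
  unfold c01 at hx
  rcases le_total (x + h) 1 with h2 | h2
  · rw [min_eq_left h2] at hx
    rcases le_total 0 (x + h) with h3 | h3
    · rw [max_eq_right h3] at hx; linarith
    · rw [max_eq_left h3] at hx
      have := h0 hx
      linarith
  · rw [min_eq_right h2, max_eq_right zero_le_one] at hx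
    have := h1 hx
    linarith

/-- The Poincare-Miranda theorem in the plane. -/
theorem miranda {H1 H2 : ℝ × ℝ → ℝ} (hH1 : ContinuousOn H1 (Icc 0 1 ×ˢ Icc 0 1))
    (hH2 : ContinuousOn H2 (Icc 0 1 ×ˢ Icc 0 1))
    (hbot : ∀ x ∈ Icc (0 : ℝ) 1, H1 (x, 0) < 0) (htop : ∀ x ∈ Icc (0 : ℝ) 1, 0 < H1 (x, 1))
    (hleft : ∀ y ∈ Icc (0 : ℝ) 1, 0 < H2 (0, y)) (hright : ∀ y ∈ Icc (0 : ℝ) 1, H2 (1, y) < 0) :
    ∃ x ∈ Icc (0 : ℝ) 1, ∃ y ∈ Icc (0 : ℝ) 1, H1 (x, y) = 0 ∧ H2 (x, y) = 0 := by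
  set r : ℝ × ℝ → ℝ × ℝ := fun p => (c01 p.1, c01 p.2) with hr
  have hrc : Continuous r :=
    (continuous_c01.comp continuous_fst).prodMk (continuous_c01.comp continuous_snd)
  have hrm : ∀ p, r p ∈ Icc (0 : ℝ) 1 ×ˢ Icc (0 : ℝ) 1 := fun p => ⟨c01_mem _, c01_mem _⟩
  have h1c : Continuous (fun p => H1 (r p)) := hH1.comp_continuous hrc hrm
  have h2c : Continuous (fun p => H2 (r p)) := hH2.comp_continuous hrc hrm
  set g : ℝ × ℝ → ℝ × ℝ := fun p =>
    (c01 ((r p).1 + H2 (r p)), c01 ((r p).2 + -H1 (r p))) with hg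
  have hgc : Continuous g :=
    (continuous_c01.comp ((continuous_fst.comp hrc).add h2c)).prodMk
      (continuous_c01.comp ((continuous_snd.comp hrc).add h1c.neg))
  obtain ⟨p, hp⟩ := Pool.Agent.Lib.FPK.exists_fixed g hgc (R := 1) (by
    intro p
    rw [Prod.norm_def]
    apply max_le
    · have := c01_mem ((r p).1 + H2 (r p))
      rw [Real.norm_eq_abs, abs_le]
      exact ⟨by linarith [this.1], this.2⟩
    · have := c01_mem ((r p).2 + -H1 (r p))
      rw [Real.norm_eq_abs, abs_le]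
      exact ⟨by linarith [this.1], this.2⟩)
  have hpm : p ∈ Icc (0 : ℝ) 1 ×ˢ Icc (0 : ℝ) 1 := by
    rw [← hp]; exact ⟨c01_mem _, c01_mem _⟩
  have hrp : r p = p := by
    simp only [hr]
    rw [c01_of_mem hpm.1, c01_of_mem hpm.2]
  have e1 : p.1 = c01 (p.1 + H2 p) := by
    have := congrArg Prod.fst hp
    simp only [hg] at this
    rw [hrp] at this
    exact this.symm
  have e2 : p.2 = c01 (p.2 + -H1 p) := by
    have := congrArg Prod.snd hp
    simp only [hg] at this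
    rw [hrp] at this
    exact this.symm
  refine ⟨p.1, hpm.1, p.2, hpm.2, ?_, ?_⟩
  · have := c01_fix e2 (fun h => by
      have h5 := hbot p.1 hpm.1
      have h6 : p = (p.1, 0) := Prod.ext rfl h
      rw [h6]
      linarith) (fun h => by
      have h5 := htop p.1 hpm.1
      have h6 : p = (p.1, 1) := Prod.ext rfl h
      rw [h6]
      linarith)
    linarith
  · exact c01_fix e1 (fun h => by
      have h5 := hleft p.2 hpm.2
      have h6 : p = (0, p.2) := Prod.ext h rfl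
      rw [h6]
      exact h5) (fun h => by
      have h5 := hright p.2 hpm.2
      have h6 : p = (1, p.2) := Prod.ext h rfl
      rw [h6]
      exact h5)

/-- **Zero lemma with mixed boundary conditions.** Two continuous functions on the unit square,
both negative on the bottom side and both positive on the top side, such that on the left side
never `F4 ≤ 0 ≤ F3` and on the right side never `F3 ≤ 0 ≤ F4`, have a common zero. -/
theorem four_sign {F3 F4 : ℝ × ℝ → ℝ} (h3 : Continuous F3) (h4 : Continuous F4)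
    (hbot : ∀ x ∈ Icc (0 : ℝ) 1, F3 (x, 0) < 0 ∧ F4 (x, 0) < 0)
    (htop : ∀ x ∈ Icc (0 : ℝ) 1, 0 < F3 (x, 1) ∧ 0 < F4 (x, 1))
    (hleft : ∀ y ∈ Icc (0 : ℝ) 1, ¬ (0 ≤ F3 (0, y) ∧ F4 (0, y) ≤ 0))
    (hright : ∀ y ∈ Icc (0 : ℝ) 1, ¬ (F3 (1, y) ≤ 0 ∧ 0 ≤ F4 (1, y))) :
    ∃ x ∈ Icc (0 : ℝ) 1, ∃ y ∈ Icc (0 : ℝ) 1, F3 (x, y) = 0 ∧ F4 (x, y) = 0 := by
  by_contra hcon
  push Not at hcon
  set S : Set (ℝ × ℝ) := Icc (0 : ℝ) 1 ×ˢ Icc (0 : ℝ) 1 with hS
  have hSc : IsClosed S := isClosed_Icc.prod isClosed_Icc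
  set CL : Set (ℝ × ℝ) := {p | 0 ≤ F3 p ∧ F4 p ≤ 0} ∩ S with hCL
  set CR : Set (ℝ × ℝ) := {p | F3 p ≤ 0 ∧ 0 ≤ F4 p} ∩ S with hCR
  have hCLc : IsClosed CL :=
    ((isClosed_le continuous_const h3).inter (isClosed_le h4 continuous_const)).inter hSc
  have hCRc : IsClosed CR :=
    ((isClosed_le h3 continuous_const).inter (isClosed_le continuous_const h4)).inter hSc
  have hLc : IsClosed (CR ∪ ({p | p.1 = 0} ∩ S)) :=
    hCRc.union ((isClosed_eq continuous_fst continuous_const).inter hSc)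
  have hRc : IsClosed (CL ∪ ({p | p.1 = 1} ∩ S)) :=
    hCLc.union ((isClosed_eq continuous_fst continuous_const).inter hSc)
  have hdisj : Disjoint (CR ∪ ({p | p.1 = 0} ∩ S)) (CL ∪ ({p : ℝ × ℝ | p.1 = 1} ∩ S)) := by
    rw [Set.disjoint_left]
    rintro ⟨x, y⟩ h1 h2
    rcases h1 with ⟨⟨h1, h1'⟩, hxS⟩ | ⟨h1, hxS⟩
    · rcases h2 with ⟨⟨h2, h2'⟩, _⟩ | ⟨h2, _⟩
      · exact hcon x hxS.1 y hxS.2 (le_antisymm h1 h2) (le_antisymm h2' h1')
      · have h2'' : x = 1 := h2
        subst h2''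
        exact hright y hxS.2 ⟨h1, h1'⟩
    · have h1'' : x = 0 := h1
      subst h1''
      rcases h2 with ⟨⟨h2, h2'⟩, _⟩ | ⟨h2, _⟩
      · exact hleft y hxS.2 ⟨h2, h2'⟩
      · exact zero_ne_one (show (0 : ℝ) = 1 from h2)
  obtain ⟨φ, hφ0, hφ1, _⟩ := exists_continuous_zero_one_of_isClosed hLc hRc hdisj
  obtain ⟨x, hx, y, hy, e1, e2⟩ := miranda
    (H1 := fun p => max (min (F3 p) (F4 p)) 0 + min (max (F3 p) (F4 p)) 0)
    (H2 := fun p => 1 - 2 * φ p)
    (by
      apply Continuous.continuousOn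
      exact ((h3.min h4).max continuous_const).add ((h3.max h4).min continuous_const))
    (by
      apply Continuous.continuousOn
      exact continuous_const.sub (continuous_const.mul φ.continuous))
    (by
      intro x hx
      obtain ⟨a1, a2⟩ := hbot x hx
      rw [max_eq_right (min_le_of_left_le a1.le), min_eq_left (max_le a1.le a2.le), zero_add]
      exact max_lt a1 a2)
    (by
      intro x hx
      obtain ⟨a1, a2⟩ := htop x hx
      rw [max_eq_left (le_min a1.le a2.le), min_eq_right (le_max_of_le_left a1.le), add_zero]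
      exact lt_min a1 a2)
    (by
      intro y hy
      have : φ (0, y) = 0 := hφ0 (Or.inr ⟨rfl, ⟨⟨le_rfl, zero_le_one⟩, hy⟩⟩)
      simp only [this]; norm_num)
    (by
      intro y hy
      have : φ (1, y) = 1 := hφ1 (Or.inr ⟨rfl, ⟨⟨zero_le_one, le_rfl⟩, hy⟩⟩)
      simp only [this]; norm_num)
  have hmem : (x, y) ∈ CR ∨ (x, y) ∈ CL := by
    rcases lt_trichotomy (F3 (x, y)) 0 with a1 | a1 | a1
    · rcases lt_or_ge (F4 (x, y)) 0 with a2 | a2
      · exfalso
        rw [max_eq_right (min_le_of_left_le a1.le), min_eq_left (max_le a1.le a2.le),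
          zero_add] at e1
        have := max_lt a1 a2
        linarith
      · exact Or.inl ⟨⟨a1.le, a2⟩, ⟨hx, hy⟩⟩
    · rcases le_total (F4 (x, y)) 0 with a2 | a2
      · exact Or.inr ⟨⟨a1.ge, a2⟩, ⟨hx, hy⟩⟩
      · exact Or.inl ⟨⟨a1.le, a2⟩, ⟨hx, hy⟩⟩
    · rcases le_or_gt (F4 (x, y)) 0 with a2 | a2
      · exact Or.inr ⟨⟨a1.le, a2⟩, ⟨hx, hy⟩⟩
      · exfalso
        rw [max_eq_left (le_min a1.le a2.le), min_eq_right (le_max_of_le_left a1.le),
          add_zero] at e1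
        have := lt_min a1 a2
        linarith
  rcases hmem with h | h
  · have : φ (x, y) = 0 := hφ0 (Or.inl h)
    rw [this] at e2; norm_num at e2
  · have : φ (x, y) = 1 := hφ1 (Or.inl h)
    rw [this] at e2; norm_num at e2

end Pool.Agent.ArcTrap
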