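import Pool.Agent.Lib.MP_2fd4e2_co.Arc.Sep
import Pool.Agent.Lib.MP_2fd4e2_co.Arc.Corner
import Pool.Agent.Lib.MP_2fd4e2_co.Arc.Square

/-!
A Lipschitz graph closed up by an arbitrary path: strips, corners, sides.
-/

set_option autoImplicit false

namespace Pool.Agent.ArcTrap

open Complex Set Filter Topology

variable {f : ℝ → ℝ} {A p q : ℝ}

theorem sign_const {h : ℂ → ℝ} (hh : Continuous h) {S : Set ℂ} (hS : IsPreconnected S)
    (h0 : ∀ z ∈ S, h z ≠ 0) {z w : ℂ} (hz : z ∈ S) (hw : w ∈ S) :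
    (h z < 0 → h w < 0) ∧ (0 < h z → 0 < h w) := by
  constructor
  · intro h1
    by_contra hcon
    push Not at hcon
    obtain ⟨x, hx, hx'⟩ := hS.intermediate_value hz hw hh.continuousOn ⟨h1.le, hcon⟩
    exact h0 x hx hx'
  · intro h1
    by_contra hcon
    push Not at hcon
    obtain ⟨x, hx, hx'⟩ := hS.intermediate_value hw hz hh.continuousOn ⟨hcon, h1.le⟩
    exact h0 x hx hx'

theorem three_above' (H : Flat f A p q) {t u : ℝ} (htu : t < u) :
    f (x3 f p q t u) < y3 f p q t u := by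
  have h1 := H.hf (x3 f p q t u) u
  have h2 := H.up htu.le
  have h3 := H.dn htu.le
  have e : x3 f p q t u - u = p * (u - t) - q * (f u - f t) := by unfold x3; ring
  rw [e] at h1
  have h4 : |p * (u - t) - q * (f u - f t)| ≤ (p + q * A) * (u - t) := by
    have m1 := mul_le_mul_of_nonneg_left h2 H.hq.le
    have m2 := mul_le_mul_of_nonneg_left h3 H.hq.le
    have m3 := mul_nonneg H.hp (show 0 ≤ u - t by linarith)
    rw [abs_le]
    constructor <;> linarith
  have h5 := mul_le_mul_of_nonneg_left h4 H.hA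
  have h6 := (abs_le.mp (h1.trans h5)).2
  have h7 := mul_le_mul_of_nonneg_left h3 H.hp
  have h8 := mul_pos H.pos (show 0 < u - t by linarith)
  unfold y3
  linarith

theorem four_above' (H : Flat f A p q) {t u : ℝ} (htu : t < u) :
    f (x4 f p q t u) < y4 f p q t u := by
  have h1 := H.hf (x4 f p q t u) t
  have h2 := H.up htu.le
  have h3 := H.dn htu.le
  have e : x4 f p q t u - t = -(p * (u - t)) - q * (f u - f t) := by unfold x4; ring
  rw [e] at h1
  have h4 : |-(p * (u - t)) - q * (f u - f t)| ≤ (p + q * A) * (u - t) := by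
    have m1 := mul_le_mul_of_nonneg_left h2 H.hq.le
    have m2 := mul_le_mul_of_nonneg_left h3 H.hq.le
    have m3 := mul_nonneg H.hp (show 0 ≤ u - t by linarith)
    rw [abs_le]
    constructor <;> linarith
  have h5 := mul_le_mul_of_nonneg_left h4 H.hA
  have h6 := (abs_le.mp (h1.trans h5)).2
  have h7 := mul_le_mul_of_nonneg_left h2 H.hp
  have h8 := mul_pos H.pos (show 0 < u - t by linarith)
  unfold y4
  linarith

/-- the component along the tangent of the graph at its left end -/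
def Dd (f : ℝ → ℝ) (a m : ℝ) (z : ℂ) : ℝ := (z.re - a) + m * (z.im - f a)

/-- the component normal to the tangent of the graph at its left end -/
def Gg (f : ℝ → ℝ) (a m : ℝ) (z : ℂ) : ℝ := (z.im - f a) - m * (z.re - a)

/-- `f` has the right derivative `m` at `a` -/
def Der (f : ℝ → ℝ) (a m : ℝ) : Prop :=
  ∀ η > 0, ∃ ρ > 0, ∀ x, a ≤ x → x ≤ a + ρ → |f x - f a - m * (x - a)| ≤ η * (x - a)

/-- near its starting point the path `c` is in a cone -/
def Cone (f : ℝ → ℝ) (c : ℝ → ℂ) (a m k1 k2 : ℝ) : Prop :=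
  ∀ᶠ t in 𝓝[>] a, 0 < Gg f a m (c t) ∧ k2 * Gg f a m (c t) ≤ Dd f a m (c t) ∧
    Dd f a m (c t) ≤ k1 * Gg f a m (c t)

/-- the condition at the left corner -/
def Cor (f : ℝ → ℝ) (c : ℝ → ℂ) (a p q : ℝ) : Prop :=
  ∃ m k1 k2, Der f a m ∧ q * (k1 - k2) < 1 + 2 * p ∧ 0 < q * k2 + p ∧ Cone f c a m k1 k2

/-- the reflection in the vertical axis -/
def mir (z : ℂ) : ℂ := ⟨-z.re, z.im⟩

@[simp] theorem mir_re (z : ℂ) : (mir z).re = -z.re := rfl
@[simp] theorem mir_im (z : ℂ) : (mir z).im = z.im := rfl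
@[simp] theorem mir_mir (z : ℂ) : mir (mir z) = z := by
  apply Complex.ext <;> simp

theorem continuous_mir : Continuous mir :=
  cmk' Complex.continuous_re.neg Complex.continuous_im

/-- all data -/
structure Arc (f : ℝ → ℝ) (A p q a b : ℝ) (c : ℝ → ℂ) (h : ℂ → ℝ) : Prop where
  H : Flat f A p q
  hab : a < b
  hcc : Continuous c
  hca : c a = ⟨a, f a⟩
  hcb : c b = ⟨b, f b⟩
  hav : ∀ t ∈ Ioo a b, ¬ (a ≤ (c t).re ∧ (c t).re ≤ b ∧ (c t).im = f (c t).re)
  hhc : Continuous h
  hz : ∀ z, h z = 0 → z ∈ Jset f a b c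
  hmid : ∀ᶠ y in 𝓝[>] (0 : ℝ), h ⟨(a + b) / 2, f ((a + b) / 2) + y⟩ < 0 ∧
        0 < h ⟨(a + b) / 2, f ((a + b) / 2) - y⟩
  legP : ∀ t ∈ Ioo a b, ∀ u ∈ Ioc a b, c t ≠ ⟨x4 f p q a u, y4 f p q a u⟩
  legQ : ∀ t ∈ Ioo a b, ∀ v ∈ Ico a b, c t ≠ ⟨x3 f p q v b, y3 f p q v b⟩
  corP : Cor f c a p q
  corQ : Cor (fun x => f (-x)) (fun t => mir (c (-t))) (-b) p q

variable {a b : ℝ} {c : ℝ → ℂ} {h : ℂ → ℝ}

theorem Arc.seg (S : Arc f A p q a b c h) {z w : ℂ}
    (hs : ∀ x ∈ segment ℝ z w, x ∉ Jset f a b c) :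
    (h z < 0 → h w < 0) ∧ (0 < h z → 0 < h w) :=
  sign_const S.hhc (convex_segment z w).isPreconnected (fun x hx h0 => hs x hx (S.hz x h0))
    (left_mem_segment ℝ z w) (right_mem_segment ℝ z w)

theorem Flat.cont' (H : Flat f A p q) : Continuous f := by
  have : LipschitzWith ⟨A, H.hA⟩ f := by
    apply LipschitzWith.of_dist_le_mul
    intro x y
    rw [Real.dist_eq, Real.dist_eq]
    exact H.hf x y
  exact this.continuous

/-- thin strips above and below the graph -/
theorem Arc.strip (S : Arc f A p q a b c h) {a' b' : ℝ} (ha' : a < a') (hb' : b' < b) :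
    ∃ ρ > 0, ∀ x, a' ≤ x → x ≤ b' → ∀ y, 0 < y → y ≤ ρ →
      h ⟨x, f x + y⟩ < 0 ∧ 0 < h ⟨x, f x - y⟩ := by
  have hf := S.H.cont'
  have hab := S.hab
  set M := (a + b) / 2 with hM
  set a2 := min a' M with ha2
  set b2 := max b' M with hb2
  have h1 : a < a2 := lt_min ha' (by rw [hM]; linarith)
  have h2 : b2 < b := max_lt hb' (by rw [hM]; linarith)
  have h3 : a2 ≤ M := min_le_right _ _
  have h4 : M ≤ b2 := le_max_right _ _
  have hK : IsCompact ((fun x : ℝ => (⟨x, f x⟩ : ℂ)) '' Icc a2 b2) :=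
    isCompact_Icc.image (cmk' continuous_id hf)
  have hC : IsClosed (c '' Icc a b) := (isCompact_Icc.image S.hcc).isClosed
  have hdis : (fun x : ℝ => (⟨x, f x⟩ : ℂ)) '' Icc a2 b2 ⊆ (c '' Icc a b)ᶜ := by
    rintro _ ⟨x, hx, rfl⟩ ⟨t, ht, htx⟩
    have hre : (c t).re = x := by rw [htx]
    have him : (c t).im = f x := by rw [htx]
    rcases eq_or_lt_of_le ht.1 with h5 | h5
    · rw [← h5, S.hca] at hre
      simp only at hre
      linarith [hx.1]
    · rcases eq_or_lt_of_le ht.2 with h6 | h6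
      · rw [h6, S.hcb] at hre
        simp only at hre
        linarith [hx.2]
      · exact S.hav t ⟨h5, h6⟩ ⟨by rw [hre]; linarith [hx.1], by rw [hre]; linarith [hx.2],
          by rw [hre]; exact him⟩
  obtain ⟨δ, hδ, hth⟩ := hK.exists_thickening_subset_open hC.isOpen_compl hdis
  obtain ⟨y1, hy1, hy1'⟩ := mem_nhdsGT_iff_exists_Ioo_subset.mp S.hmid
  have hy1pos : 0 < y1 := hy1
  have hmin : 0 < min δ y1 := lt_min hδ hy1pos
  refine ⟨min δ y1 / 2, by positivity, ?_⟩
  intro x hx1 hx2 y hy0 hy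
  have hyδ : y < δ := by have := min_le_left δ y1; linarith
  have hyy : y < y1 := by have := min_le_right δ y1; linarith
  have key : ∀ e : ℝ, |e| = y → ∀ x ∈ Icc a2 b2, h ⟨x, f x + e⟩ ≠ 0 := by
    intro e he x hx h0
    rcases S.hz _ h0 with ⟨t, ht, htx⟩ | ⟨k1, k2, k3⟩
    · have h5 : (⟨x, f x + e⟩ : ℂ) ∈ Metric.thickening δ
          ((fun x : ℝ => (⟨x, f x⟩ : ℂ)) '' Icc a2 b2) := by
        rw [Metric.mem_thickening_iff]
        refine ⟨⟨x, f x⟩, ⟨x, hx, rfl⟩, ?_⟩
        have h6 : (⟨x, f x + e⟩ : ℂ) - ⟨x, f x⟩ = ((e : ℝ) : ℂ) * I := by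
          apply Complex.ext <;> simp
        rw [dist_eq_norm, h6, norm_mul, Complex.norm_I, mul_one, Complex.norm_real,
          Real.norm_eq_abs, he]
        exact hyδ
      exact hth h5 ⟨t, ht, htx⟩
    · simp only at k3
      have : e = 0 := by linarith
      rw [this, abs_zero] at he
      linarith
  have hsgn : ∀ e : ℝ, |e| = y → (h ⟨M, f M + e⟩ < 0 → h ⟨x, f x + e⟩ < 0) ∧
      (0 < h ⟨M, f M + e⟩ → 0 < h ⟨x, f x + e⟩) := by
    intro e he
    have hS : IsPreconnected ((fun x : ℝ => (⟨x, f x + e⟩ : ℂ)) '' Icc a2 b2) :=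
      isPreconnected_Icc.image _ (cmk' continuous_id (hf.add continuous_const)).continuousOn
    apply sign_const S.hhc hS
    · rintro _ ⟨x, hx, rfl⟩
      exact key e he x hx
    · exact ⟨M, ⟨h3, h4⟩, rfl⟩
    · exact ⟨x, ⟨(min_le_left _ _).trans hx1, hx2.trans (le_max_left _ _)⟩, rfl⟩
  obtain ⟨m1, m2⟩ := hy1' ⟨hy0, hyy⟩
  constructor
  · exact (hsgn y (abs_of_pos hy0)).1 m1
  · have := (hsgn (-y) (by rw [abs_neg, abs_of_pos hy0])).2
    rw [← sub_eq_add_neg, ← sub_eq_add_neg] at this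
    exact this m2

theorem near_corner2 {a b : ℝ} {P : ℂ} {c : ℝ → ℂ} (hcc : Continuous c)
    (hne : ∀ t ∈ Ioc a b, c t ≠ P) {s0 : ℝ} (hs0 : a < s0) :
    ∃ ρ > 0, ∀ t ∈ Icc a b, ‖c t - P‖ ≤ ρ → t < s0 := by
  rcases lt_or_ge b s0 with h | h
  · exact ⟨1, one_pos, fun t ht _ => ht.2.trans_lt h⟩
  · obtain ⟨s, hs, hmin⟩ := (isCompact_Icc (a := s0) (b := b)).exists_isMinOn
      (nonempty_Icc.mpr h) (f := fun t => ‖c t - P‖)
      ((hcc.sub continuous_const).norm.continuousOn)
    have hpos : 0 < ‖c s - P‖ := by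
      rw [norm_pos_iff, sub_ne_zero]
      exact hne s ⟨by linarith [hs.1], hs.2⟩
    refine ⟨‖c s - P‖ / 2, by positivity, ?_⟩
    intro t ht h1
    by_contra hcon
    push Not at hcon
    have h3 : ‖c s - P‖ ≤ ‖c t - P‖ := hmin ⟨hcon, ht.2⟩
    linarith

/-- the curve near the left corner -/
theorem Arc.loc (S : Arc f A p q a b c h) {m k1 k2 : ℝ} (hcone : Cone f c a m k1 k2) :
    ∃ ρ > 0, ∀ z ∈ Jset f a b c, |z.re - a| ≤ ρ → |z.im - f a| ≤ ρ →
      z = ⟨a, f a⟩ ∨ (0 < Gg f a m z ∧ k2 * Gg f a m z ≤ Dd f a m z ∧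
        Dd f a m z ≤ k1 * Gg f a m z) ∨ (a < z.re ∧ z.im = f z.re) := by
  have hne : ∀ t ∈ Ioc a b, c t ≠ ⟨a, f a⟩ := by
    intro t ht heq
    rcases eq_or_lt_of_le ht.2 with h1 | h1
    · rw [h1, S.hcb] at heq
      have := congrArg Complex.re heq
      simp only at this
      linarith [S.hab]
    · apply S.hav t ⟨ht.1, h1⟩
      rw [heq]
      exact ⟨le_rfl, S.hab.le, rfl⟩
  obtain ⟨s0, hs0, hcs⟩ := mem_nhdsGT_iff_exists_Ioo_subset.mp hcone
  obtain ⟨ρ, hρ, hnear⟩ := near_corner2 S.hcc hne hs0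
  refine ⟨ρ / 2, by positivity, ?_⟩
  rintro z (⟨t, ht, rfl⟩ | ⟨h1, h2, h3⟩) hz1 hz2
  · have h4 := Complex.norm_le_abs_re_add_abs_im (c t - ⟨a, f a⟩)
    simp only [Complex.sub_re, Complex.sub_im] at h4
    have h5 := hnear t ht (by linarith)
    rcases eq_or_lt_of_le ht.1 with h6 | h6
    · left
      rw [← h6, S.hca]
    · right; left
      exact hcs ⟨h6, h5⟩
  · rcases eq_or_lt_of_le h1 with h6 | h6
    · left
      apply Complex.ext
      · exact h6.symm
      · rw [h3, ← h6]
    · right; right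
      exact ⟨h6, h3⟩

/-- the region between the graph and the path near the left corner -/
theorem Arc.lower (S : Arc f A p q a b c h) {m k1 k2 : ℝ} (hder : Der f a m)
    (hcone : Cone f c a m k1 k2) :
    ∃ ρ > 0, ∀ z : ℂ, |z.re - a| ≤ ρ → |z.im - f a| ≤ ρ →
      k1 * Gg f a m z < Dd f a m z →
      ((a < z.re ∧ f z.re < z.im) ∨ (z.re ≤ a ∧ 0 < Gg f a m z)) → h z < 0 := by
  have hA := S.H.hA
  have hab := S.hab
  set k := 1 + |k1| + |k2| + |m| with hk
  have hk1 : 1 ≤ k := by
    have := abs_nonneg k1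
    have := abs_nonneg k2
    have := abs_nonneg m
    linarith
  have hkpos : 0 < k := by linarith
  obtain ⟨ρ1, hρ1, hd⟩ := hder (1 / (4 * k)) (by positivity)
  obtain ⟨ρ2, hρ2, hloc⟩ := S.loc hcone
  set η := 1 / (4 * k) with hη
  have hηk : k * η = 1 / 4 := by rw [hη]; field_simp
  have hηpos : 0 < η := by positivity
  obtain ⟨ρ, hρ, r1, r2, r3⟩ : ∃ ρ > 0, ρ ≤ ρ1 ∧ (1 + A) * ρ ≤ ρ2 ∧ ρ < b - a := by
    have hba : 0 < b - a := by linarith
    refine ⟨min ρ1 (min (ρ2 / (1 + A)) ((b - a) / 2)), by positivity, min_le_left _ _, ?_, ?_⟩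
    · calc (1 + A) * _ ≤ (1 + A) * (ρ2 / (1 + A)) :=
            mul_le_mul_of_nonneg_left ((min_le_right _ _).trans (min_le_left _ _)) (by positivity)
        _ = ρ2 := by field_simp
    · have := (min_le_right ρ1 (min (ρ2 / (1 + A)) ((b - a) / 2))).trans (min_le_right _ _)
      linarith
  have hAρ : 0 ≤ A * ρ := mul_nonneg hA hρ.le
  -- deviation
  have hdev : ∀ x, a < x → x ≤ a + ρ → |f x - f a - m * (x - a)| ≤ η * (x - a) :=
    fun x h1 h2 => hd x h1.le (by linarith)
  -- points of the graph satisfy the strict inequality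
  have hgr : ∀ x, a < x → x ≤ a + ρ → k1 * (f x - f a - m * (x - a)) <
      (x - a) + m * (f x - f a) := by
    intro x h1 h2
    have h3 := hdev x h1 h2
    set e := f x - f a - m * (x - a) with he
    have h4 : (x - a) + m * (f x - f a) - k1 * e = (1 + m ^ 2) * (x - a) + (m - k1) * e := by
      rw [he]; ring
    have h5 : |(m - k1) * e| ≤ k * (η * (x - a)) := by
      rw [abs_mul]
      apply mul_le_mul _ h3 (abs_nonneg _) hkpos.le
      have := abs_sub m k1
      have := abs_nonneg k2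
      linarith
    have h6 := (abs_le.mp h5).1
    have h7 : k * (η * (x - a)) = 1 / 4 * (x - a) := by rw [← mul_assoc, hηk]
    have h8 : 0 ≤ m ^ 2 * (x - a) := mul_nonneg (sq_nonneg _) (by linarith)
    linarith
  have case1 : ∀ z : ℂ, |z.re - a| ≤ ρ → |z.im - f a| ≤ ρ → k1 * Gg f a m z < Dd f a m z →
      a < z.re → f z.re < z.im → h z < 0 := by
    intro z hz1 hz2 hz3 hz4 hz5
    have hxρ : z.re ≤ a + ρ := by linarith [(abs_le.mp hz1).2]
    obtain ⟨ρx, hρx, hst⟩ := S.strip hz4 (show z.re < b by linarith)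
    set y := min ρx (z.im - f z.re) with hy
    have hypos : 0 < y := lt_min hρx (by linarith)
    have hy1 : y ≤ ρx := min_le_left _ _
    have hy2 : y ≤ z.im - f z.re := min_le_right _ _
    have h1 := (hst z.re le_rfl le_rfl y hypos hy1).1
    refine (S.seg (z := ⟨z.re, f z.re + y⟩) (w := z) ?_).1 h1
    intro w hw hwJ
    obtain ⟨θ, hθ, e1, e2⟩ := mem_seg_re hw
    simp only [sub_self, mul_zero, add_zero] at e1 e2
    have v1 : f z.re < w.im := by
      rw [e2]
      have := mul_nonneg hθ.1 (show 0 ≤ z.im - (f z.re + y) by linarith)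
      linarith
    have v2 : w.im ≤ z.im := by
      rw [e2]
      have := mul_le_mul_of_nonneg_right hθ.2 (show 0 ≤ z.im - (f z.re + y) by linarith)
      linarith
    have h7 := S.H.dn hz4.le
    have h8 : A * (z.re - a) ≤ A * ρ := mul_le_mul_of_nonneg_left (by linarith) hA
    have h9 := abs_le.mp hz2
    have b1 : |w.re - a| ≤ ρ2 := by rw [e1]; linarith
    have b2 : |w.im - f a| ≤ ρ2 := by rw [abs_le]; constructor <;> linarith
    rcases hloc w hwJ b1 b2 with k3 | ⟨_, _, k3⟩ | ⟨_, k3⟩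
    · have := congrArg Complex.re k3
      simp only at this
      linarith
    · have g1 := hgr z.re hz4 hxρ
      simp only [Gg, Dd] at k3 hz3
      rw [e1] at k3
      rcases le_total 0 (m - k1) with s | s
      · have := mul_le_mul_of_nonneg_left v1.le s
        linarith
      · have := mul_le_mul_of_nonpos_left v2 s
        linarith
    · rw [e1] at k3
      linarith
  refine ⟨ρ, hρ, ?_⟩
  rintro z hz1 hz2 hz3 (⟨hz4, hz5⟩ | ⟨hz4, hz5⟩)
  · exact case1 z hz1 hz2 hz3 hz4 hz5
  · -- the second case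
    set κ := 1 / (2 * k) with hκ
    have hκη : κ = 2 * η := by rw [hκ, hη]; field_simp; ring
    have hκpos : 0 < κ := by positivity
    have hκk : k * κ = 1 / 2 := by rw [hκ]; field_simp
    set s := ρ / (1 + |m| + κ) with hs
    have hden : 0 < 1 + |m| + κ := by positivity
    have hspos : 0 < s := by positivity
    have hsρ : (1 + |m| + κ) * s = ρ := by rw [hs]; field_simp
    have hms : 0 ≤ |m| * s := by positivity
    have hκs : 0 < κ * s := by positivity
    have hs1 : s ≤ ρ := by linarith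
    have hms2 : |m * s| ≤ |m| * s := by rw [abs_mul, abs_of_pos hspos]
    have hms3 := abs_le.mp hms2
    set z' : ℂ := ⟨a + s, f a + m * s + κ * s⟩ with hz'
    have hG' : Gg f a m z' = κ * s := by simp only [Gg, hz']; ring
    have hD' : Dd f a m z' = s + m ^ 2 * s + m * (κ * s) := by simp only [Dd, hz']; ring
    have hlt' : k1 * Gg f a m z' < Dd f a m z' := by
      rw [hG', hD']
      have h5 : |(m - k1) * (κ * s)| ≤ k * (κ * s) := by
        rw [abs_mul, abs_of_pos hκs]
        apply mul_le_mul_of_nonneg_right _ hκs.le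
        have := abs_sub m k1
        have := abs_nonneg k2
        linarith
      have h6 := (abs_le.mp h5).1
      have h7 : k * (κ * s) = 1 / 2 * s := by rw [← mul_assoc, hκk]
      have h8 : 0 ≤ m ^ 2 * s := by positivity
      linarith
    have hz'neg : h z' < 0 := by
      apply case1 z' _ _ hlt'
      · show a < a + s
        linarith
      · show f (a + s) < f a + m * s + κ * s
        have h9 := hdev (a + s) (by linarith) (by linarith)
        have h10 := (abs_le.mp h9).2
        rw [show a + s - a = s by ring] at h10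
        have : η * s < κ * s := by rw [hκη]; nlinarith
        linarith
      · show |a + s - a| ≤ ρ
        rw [show a + s - a = s by ring, abs_of_pos hspos]
        exact hs1
      · show |f a + m * s + κ * s - f a| ≤ ρ
        rw [abs_le]
        constructor <;> linarith
    refine (S.seg (z := z') (w := z) ?_).1 hz'neg
    intro w hw hwJ
    obtain ⟨θ, hθ, e1, e2⟩ := mem_seg_re hw
    have hθ' : 0 ≤ 1 - θ := by linarith [hθ.2]
    simp only [hz'] at e1 e2
    have zi := abs_le.mp hz2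
    have zr := abs_le.mp hz1
    have b1 : |w.re - a| ≤ ρ2 := by
      have e3 : w.re - a = (1 - θ) * s + θ * (z.re - a) := by rw [e1]; ring
      have c1 := mul_le_mul_of_nonneg_left hs1 hθ'
      have c2 := mul_le_mul_of_nonneg_left zr.2 hθ.1
      have c3 := mul_le_mul_of_nonneg_left zr.1 hθ.1
      have c4 := mul_nonneg hθ' hspos.le
      have c5 : θ * ρ ≤ 1 * ρ := mul_le_mul_of_nonneg_right hθ.2 hρ.le
      rw [e3, abs_le]
      constructor <;> linarith
    have b2 : |w.im - f a| ≤ ρ2 := by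
      have e3 : w.im - f a = (1 - θ) * (m * s + κ * s) + θ * (z.im - f a) := by rw [e2]; ring
      have c0 : m * s + κ * s ≤ ρ := by linarith
      have c0' : -ρ ≤ m * s + κ * s := by linarith
      have c1 := mul_le_mul_of_nonneg_left c0 hθ'
      have c1' := mul_le_mul_of_nonneg_left c0' hθ'
      have c2 := mul_le_mul_of_nonneg_left zi.2 hθ.1
      have c3 := mul_le_mul_of_nonneg_left zi.1 hθ.1
      rw [e3, abs_le]
      constructor <;> linarith
    have eG : Gg f a m w = (1 - θ) * (κ * s) + θ * Gg f a m z := by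
      rw [← hG']; simp only [Gg, hz']; rw [e1, e2]; ring
    have eD : Dd f a m w = (1 - θ) * Dd f a m z' + θ * Dd f a m z := by
      simp only [Dd, hz']; rw [e1, e2]; ring
    have hGw : 0 < Gg f a m w := by
      rw [eG]
      rcases eq_or_lt_of_le hθ.1 with h5 | h5
      · rw [← h5]; simp only [sub_zero, one_mul, zero_mul, add_zero]; exact hκs
      · have := mul_pos h5 hz5
        have := mul_nonneg hθ' hκs.le
        linarith
    have hKw : k1 * Gg f a m w < Dd f a m w := by
      have e3 : Dd f a m w - k1 * Gg f a m w = (1 - θ) * (Dd f a m z' - k1 * Gg f a m z')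
          + θ * (Dd f a m z - k1 * Gg f a m z) := by
        rw [eD, hG', eG]; ring
      have c1 : 0 < Dd f a m z' - k1 * Gg f a m z' := by linarith
      have c2 : 0 < Dd f a m z - k1 * Gg f a m z := by linarith
      rcases eq_or_lt_of_le hθ.1 with h5 | h5
      · rw [← h5] at e3
        linarith
      · have := mul_pos h5 c2
        have := mul_nonneg hθ' c1.le
        linarith
    rcases hloc w hwJ b1 b2 with k3 | ⟨_, _, k3⟩ | ⟨k4, k3⟩
    · rw [k3] at hGw
      simp [Gg] at hGw
    · linarith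
    · -- the graph
      have e3 : w.re - a = (1 - θ) * s + θ * (z.re - a) := by rw [e1]; ring
      have c1 : w.re - a ≤ (1 - θ) * s := by
        have := mul_nonneg hθ.1 (show 0 ≤ a - z.re by linarith)
        linarith
      have c2 : (1 - θ) * s ≤ s := by
        have := mul_nonneg hθ.1 hspos.le
        linarith
      have h9 := (abs_le.mp (hdev w.re k4 (by linarith))).2
      have c3 : Gg f a m w = f w.re - f a - m * (w.re - a) := by
        simp only [Gg]; rw [k3]
      have c4 : κ * (w.re - a) ≤ κ * ((1 - θ) * s) := mul_le_mul_of_nonneg_left c1 hκpos.le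
      have c5 : 0 ≤ θ * Gg f a m z := mul_nonneg hθ.1 hz5.le
      have c6 : η * (w.re - a) < κ * (w.re - a) := by
        apply mul_lt_mul_of_pos_right _ (by linarith)
        rw [hκη]; linarith
      linarith

/-- the region beyond the path near the left corner -/
theorem Arc.upper (S : Arc f A p q a b c h) {m k1 k2 : ℝ} (hder : Der f a m)
    (hcone : Cone f c a m k1 k2) :
    ∃ ρ > 0, ∀ z : ℂ, |z.re - a| ≤ ρ → |z.im - f a| ≤ ρ →
      Dd f a m z < k2 * Gg f a m z → 0 < h z := by
  have hA := S.H.hA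
  have hab := S.hab
  set k := 1 + |k1| + |k2| + |m| with hk
  have hk1 : 1 ≤ k := by
    have := abs_nonneg k1
    have := abs_nonneg k2
    have := abs_nonneg m
    linarith
  have hkpos : 0 < k := by linarith
  obtain ⟨ρ1, hρ1, hd⟩ := hder (1 / (4 * k)) (by positivity)
  obtain ⟨ρ2, hρ2, hloc⟩ := S.loc hcone
  set η := 1 / (4 * k) with hη
  have hηk : k * η = 1 / 4 := by rw [hη]; field_simp
  have hηpos : 0 < η := by positivity
  have hba : 0 < b - a := by linarith
  -- the scale
  set R := min ρ1 (min ρ2 ((b - a) / 2)) with hR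
  have hRpos : 0 < R := by positivity
  have hR1 : R ≤ ρ1 := min_le_left _ _
  have hR2 : R ≤ ρ2 := (min_le_right _ _).trans (min_le_left _ _)
  have hR3 : R < b - a := by
    have := (min_le_right ρ1 (min ρ2 ((b - a) / 2))).trans (min_le_right _ _)
    linarith
  set C := 1 + |m| with hC
  have hCpos : 0 < C := by positivity
  set L := (1 + |k2| + |m|) + ((1 + |k2|) * |m| + 1) + (C + |m|) + (C * |m| + 1)
    + A * (C + |m|) with hL
  have hLpos : 0 < L := by positivity
  set τ := R / L with hτ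
  have hτpos : 0 < τ := by positivity
  have hLτ : L * τ = R := by rw [hτ]; field_simp
  have t1 : (1 + |k2| + |m|) * τ ≤ R := by
    rw [← hLτ]; apply mul_le_mul_of_nonneg_right _ hτpos.le
    have : 0 ≤ ((1 + |k2|) * |m| + 1) + (C + |m|) + (C * |m| + 1) + A * (C + |m|) := by positivity
    linarith
  have t2 : ((1 + |k2|) * |m| + 1) * τ ≤ R := by
    rw [← hLτ]; apply mul_le_mul_of_nonneg_right _ hτpos.le
    have : 0 ≤ (1 + |k2| + |m|) + (C + |m|) + (C * |m| + 1) + A * (C + |m|) := by positivity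
    linarith
  have t3 : (C + |m|) * τ ≤ R := by
    rw [← hLτ]; apply mul_le_mul_of_nonneg_right _ hτpos.le
    have : 0 ≤ (1 + |k2| + |m|) + ((1 + |k2|) * |m| + 1) + (C * |m| + 1) + A * (C + |m|) := by
      positivity
    linarith
  have t4 : (C * |m| + 1) * τ ≤ R := by
    rw [← hLτ]; apply mul_le_mul_of_nonneg_right _ hτpos.le
    have : 0 ≤ (1 + |k2| + |m|) + ((1 + |k2|) * |m| + 1) + (C + |m|) + A * (C + |m|) := by
      positivity
    linarith
  have t5 : A * (C + |m|) * τ ≤ R := by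
    rw [← hLτ]; apply mul_le_mul_of_nonneg_right _ hτpos.le
    have : 0 ≤ (1 + |k2| + |m|) + ((1 + |k2|) * |m| + 1) + (C + |m|) + (C * |m| + 1) := by
      positivity
    linarith
  have am := abs_nonneg m
  have ak2 := abs_nonneg k2
  have ak1 := abs_nonneg k1
  have m1 : -|m| ≤ m := neg_abs_le m
  have m2 : m ≤ |m| := le_abs_self m
  have mτ : |m * τ| ≤ |m| * τ := by rw [abs_mul, abs_of_pos hτpos]
  have mτ1 := (abs_le.mp mτ).1
  have mτ2 := (abs_le.mp mτ).2
  -- the points
  set z1 : ℂ := ⟨a + τ * (-(1 + |k2|) + m), f a + τ * (-(1 + |k2|) * m - 1)⟩ with hz1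
  set z2 : ℂ := ⟨a + τ * (C + m), f a + τ * (C * m - 1)⟩ with hz2
  have hX : 0 < τ * (C + m) := by
    apply mul_pos hτpos
    rw [hC]; linarith
  have hX' : τ * (C + m) ≤ (C + |m|) * τ := by
    have := mul_le_mul_of_nonneg_left m2 hτpos.le
    linarith
  have hηX : η * (τ * (C + m)) ≤ τ / 2 := by
    have h1 : τ * (C + m) ≤ 2 * k * τ := by
      have h2 : C + m ≤ 2 * k := by rw [hC, hk]; linarith
      have := mul_le_mul_of_nonneg_left h2 hτpos.le
      linarith
    have h2 := mul_le_mul_of_nonneg_left h1 hηpos.le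
    have h3 : η * (2 * k * τ) = 2 * (k * η) * τ := by ring
    rw [h3, hηk] at h2
    linarith
  set x2 := a + τ * (C + m) with hx2
  have hx2a : a < x2 := by linarith
  have hdev := hd x2 hx2a.le (by linarith)
  have hxa : x2 - a = τ * (C + m) := by rw [hx2]; ring
  rw [hxa] at hdev
  set e := f x2 - f a - m * (τ * (C + m)) with he
  have hdev' := abs_le.mp hdev
  have hm2 : 0 ≤ m ^ 2 * τ := by positivity
  obtain ⟨ρx, hρx, hst⟩ := S.strip hx2a (show x2 < b by linarith)
  have hgap : 0 < f x2 - (f a + τ * (C * m - 1)) := by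
    have : f x2 - (f a + τ * (C * m - 1)) = e + m ^ 2 * τ + τ := by rw [he]; ring
    linarith
  set y := min ρx (f x2 - (f a + τ * (C * m - 1))) with hy
  have hypos : 0 < y := lt_min hρx hgap
  have hy1 : y ≤ ρx := min_le_left _ _
  have hy2 : y ≤ f x2 - (f a + τ * (C * m - 1)) := min_le_right _ _
  have hstart := (hst x2 le_rfl le_rfl y hypos hy1).2
  have hfx2 : f x2 - f a ≤ R := by
    have h5 := S.H.up hx2a.le
    rw [hxa] at h5
    have h6 := mul_le_mul_of_nonneg_left hX' hA
    linarith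
  have hz2pos : 0 < h z2 := by
    refine (S.seg (z := ⟨x2, f x2 - y⟩) (w := z2) ?_).2 hstart
    intro w hw hwJ
    obtain ⟨θ, hθ, e1, e2⟩ := mem_seg_re hw
    simp only [hz2, sub_self, mul_zero, add_zero] at e1 e2
    have v1 : w.im < f x2 := by
      rw [e2]
      have := mul_nonneg hθ.1 (show 0 ≤ (f x2 - y) - (f a + τ * (C * m - 1)) by linarith)
      linarith
    have v2 : f a + τ * (C * m - 1) ≤ w.im := by
      rw [e2]
      have := mul_le_mul_of_nonneg_right hθ.2
        (show 0 ≤ (f x2 - y) - (f a + τ * (C * m - 1)) by linarith)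
      linarith
    have v3 : -R ≤ τ * (C * m - 1) := by
      have := mul_le_mul_of_nonneg_left m1 (show 0 ≤ τ * C by positivity)
      linarith
    have b1 : |w.re - a| ≤ ρ2 := by rw [e1, hxa, abs_of_pos hX]; linarith
    have b2 : |w.im - f a| ≤ ρ2 := by rw [abs_le]; constructor <;> linarith
    rcases hloc w hwJ b1 b2 with k3 | ⟨k5, k4, k3⟩ | ⟨_, k3⟩
    · have := congrArg Complex.re k3
      simp only at this
      linarith
    · -- the path
      have g1 : Gg f a m w = w.im - f a - m * (τ * (C + m)) := by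
        simp only [Gg]; rw [e1, hxa]
      have g2 : Gg f a m w < e := by rw [g1, he]; linarith
      have g3 : Dd f a m w = (1 + m ^ 2) * (τ * (C + m)) + m * Gg f a m w := by
        rw [g1]; simp only [Dd]; rw [e1, hxa]; ring
      rw [g3] at k3
      have g4 : |(m - k1) * Gg f a m w| ≤ k * (η * (τ * (C + m))) := by
        rw [abs_mul, abs_of_pos k5]
        apply mul_le_mul _ (by linarith) k5.le hkpos.le
        have := abs_sub m k1
        linarith
      have g5 : k * (η * (τ * (C + m))) = 1 / 4 * (τ * (C + m)) := by rw [← mul_assoc, hηk]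
      have g6 := (abs_le.mp g4).1
      have g7 : 0 ≤ m ^ 2 * (τ * (C + m)) := by positivity
      linarith
    · rw [e1] at k3
      linarith
  have hz1pos : 0 < h z1 := by
    refine (S.seg (z := z2) (w := z1) ?_).2 hz2pos
    intro w hw hwJ
    obtain ⟨θ, hθ, e1, e2⟩ := mem_seg_re hw
    have hθ' : 0 ≤ 1 - θ := by linarith [hθ.2]
    simp only [hz1, hz2] at e1 e2
    have f1 : w.re - a = (1 - θ) * (τ * (C + m)) + θ * (τ * (-(1 + |k2|) + m)) := by
      rw [e1, hx2]; ring
    have f2 : w.im - f a = (1 - θ) * (τ * (C * m - 1)) + θ * (τ * (-(1 + |k2|) * m - 1)) := by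
      rw [e2]; ring
    have c1 : |τ * (C + m)| ≤ R := by rw [abs_of_pos hX]; linarith
    have c2 : |τ * (-(1 + |k2|) + m)| ≤ R := by
      rw [abs_mul, abs_of_pos hτpos, mul_comm]
      refine le_trans (mul_le_mul_of_nonneg_right ?_ hτpos.le) t1
      rw [abs_le]; constructor <;> linarith
    have c3 : |τ * (C * m - 1)| ≤ R := by
      rw [abs_mul, abs_of_pos hτpos, mul_comm]
      refine le_trans (mul_le_mul_of_nonneg_right ?_ hτpos.le) t4
      have h5 := mul_le_mul_of_nonneg_left m1 hCpos.le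
      have h6 := mul_le_mul_of_nonneg_left m2 hCpos.le
      rw [abs_le]; constructor <;> linarith
    have c4 : |τ * (-(1 + |k2|) * m - 1)| ≤ R := by
      rw [abs_mul, abs_of_pos hτpos, mul_comm]
      refine le_trans (mul_le_mul_of_nonneg_right ?_ hτpos.le) t2
      have h4 : 0 ≤ 1 + |k2| := by positivity
      have h5 := mul_le_mul_of_nonneg_left m1 h4
      have h6 := mul_le_mul_of_nonneg_left m2 h4
      rw [abs_le]; constructor <;> linarith
    have comb : ∀ u v : ℝ, |u| ≤ R → |v| ≤ R → |(1 - θ) * u + θ * v| ≤ ρ2 := by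
      intro u v hu hv
      have d1 := mul_le_mul_of_nonneg_left (abs_le.mp hu).1 hθ'
      have d2 := mul_le_mul_of_nonneg_left (abs_le.mp hu).2 hθ'
      have d3 := mul_le_mul_of_nonneg_left (abs_le.mp hv).1 hθ.1
      have d4 := mul_le_mul_of_nonneg_left (abs_le.mp hv).2 hθ.1
      rw [abs_le]; constructor <;> linarith
    have b1 : |w.re - a| ≤ ρ2 := by rw [f1]; exact comb _ _ c1 c2
    have b2 : |w.im - f a| ≤ ρ2 := by rw [f2]; exact comb _ _ c3 c4
    have hG : Gg f a m w = -(τ * (1 + m ^ 2)) := by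
      simp only [Gg]; rw [f1, f2]; ring
    rcases hloc w hwJ b1 b2 with k3 | ⟨k5, k4, k3⟩ | ⟨k4, k3⟩
    · rw [k3] at hG
      simp only [Gg, sub_self, mul_zero] at hG
      linarith
    · rw [hG] at k5
      linarith
    · have f3 : w.re - a ≤ τ * (C + m) := by
        rw [f1]
        have : 0 ≤ θ * (τ * (C + (1 + |k2|))) := mul_nonneg hθ.1 (by positivity)
        linarith
      have h9 := (abs_le.mp (hd w.re k4.le (by linarith))).1
      have f4 : η * (w.re - a) ≤ η * (τ * (C + m)) := mul_le_mul_of_nonneg_left f3 hηpos.le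
      have f5 : Gg f a m w = f w.re - f a - m * (w.re - a) := by simp only [Gg]; rw [k3]
      rw [f5] at hG
      linarith
  -- from the first point to the given one
  refine ⟨min R (R / (1 + A)), by positivity, ?_⟩
  intro z hzr hzi hzK
  have hzr' := hzr.trans (min_le_left _ _)
  have hzi' := hzi.trans (min_le_left _ _)
  refine (S.seg (z := z1) (w := z) ?_).2 hz1pos
  intro w hw hwJ
  obtain ⟨θ, hθ, e1, e2⟩ := mem_seg_re hw
  have hθ' : 0 ≤ 1 - θ := by linarith [hθ.2]
  simp only [hz1] at e1 e2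
  have f1 : w.re - a = (1 - θ) * (τ * (-(1 + |k2|) + m)) + θ * (z.re - a) := by
    rw [e1]; ring
  have f2 : w.im - f a = (1 - θ) * (τ * (-(1 + |k2|) * m - 1)) + θ * (z.im - f a) := by
    rw [e2]; ring
  have c2 : |τ * (-(1 + |k2|) + m)| ≤ R := by
    rw [abs_mul, abs_of_pos hτpos, mul_comm]
    refine le_trans (mul_le_mul_of_nonneg_right ?_ hτpos.le) t1
    rw [abs_le]; constructor <;> linarith
  have c4 : |τ * (-(1 + |k2|) * m - 1)| ≤ R := by
    rw [abs_mul, abs_of_pos hτpos, mul_comm]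
    refine le_trans (mul_le_mul_of_nonneg_right ?_ hτpos.le) t2
    have h4 : 0 ≤ 1 + |k2| := by positivity
    have h5 := mul_le_mul_of_nonneg_left m1 h4
    have h6 := mul_le_mul_of_nonneg_left m2 h4
    rw [abs_le]; constructor <;> linarith
  have comb : ∀ u v : ℝ, |u| ≤ R → |v| ≤ R → |(1 - θ) * u + θ * v| ≤ R := by
    intro u v hu hv
    have d1 := mul_le_mul_of_nonneg_left (abs_le.mp hu).1 hθ'
    have d2 := mul_le_mul_of_nonneg_left (abs_le.mp hu).2 hθ'
    have d3 := mul_le_mul_of_nonneg_left (abs_le.mp hv).1 hθ.1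
    have d4 := mul_le_mul_of_nonneg_left (abs_le.mp hv).2 hθ.1
    rw [abs_le]; constructor <;> linarith
  have b1' : |w.re - a| ≤ R := by rw [f1]; exact comb _ _ c2 hzr'
  have b2' : |w.im - f a| ≤ R := by rw [f2]; exact comb _ _ c4 hzi'
  have eK : Dd f a m w - k2 * Gg f a m w = (1 - θ) * (τ * (1 + m ^ 2) * (-1 - |k2| + k2))
      + θ * (Dd f a m z - k2 * Gg f a m z) := by
    have e3 : Dd f a m w = (w.re - a) + m * (w.im - f a) := rfl
    have e4 : Gg f a m w = (w.im - f a) - m * (w.re - a) := rfl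
    rw [e3, e4, f1, f2]
    simp only [Dd, Gg]
    ring
  have hK1 : τ * (1 + m ^ 2) * (-1 - |k2| + k2) < 0 := by
    have h5 : 0 < τ * (1 + m ^ 2) := by positivity
    have h6 : -1 - |k2| + k2 < 0 := by linarith [le_abs_self k2]
    exact mul_neg_of_pos_of_neg h5 h6
  have hKw : Dd f a m w < k2 * Gg f a m w := by
    have c2 : Dd f a m z - k2 * Gg f a m z < 0 := by linarith
    rcases eq_or_lt_of_le hθ.1 with h5 | h5
    · rw [← h5] at eK
      linarith
    · have := mul_neg_of_pos_of_neg h5 c2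
      have := mul_nonpos_of_nonneg_of_nonpos hθ' hK1.le
      linarith
  rcases hloc w hwJ (by linarith) (by linarith) with k3 | ⟨k5, k4, k3⟩ | ⟨k4, k3⟩
  · rw [k3] at hKw
    simp [Dd, Gg] at hKw
  · linarith
  · -- the graph
    have w1 := (abs_le.mp b1').2
    have h9 := hd w.re k4.le (by linarith)
    set e' := f w.re - f a - m * (w.re - a) with he'
    have f5 : Gg f a m w = e' := by simp only [Gg]; rw [k3]
    have f6 : Dd f a m w = (1 + m ^ 2) * (w.re - a) + m * e' := by
      simp only [Dd]; rw [k3, he']; ring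
    rw [f5, f6] at hKw
    have g4 : |(m - k2) * e'| ≤ k * (η * (w.re - a)) := by
      rw [abs_mul]
      apply mul_le_mul _ h9 (abs_nonneg _) hkpos.le
      have := abs_sub m k2
      linarith
    have g5 : k * (η * (w.re - a)) = 1 / 4 * (w.re - a) := by rw [← mul_assoc, hηk]
    have g6 := (abs_le.mp g4).1
    have g7 : 0 ≤ m ^ 2 * (w.re - a) := mul_nonneg (sq_nonneg _) (by linarith)
    linarith

end Pool.Agent.ArcTrap
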