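import Pool.Agent.Lib.MP_2fd4e2_co.Arc.Side

/-!
A continuous line with two horizontal end rays separates far above from far below.
-/

set_option autoImplicit false

namespace Pool.Agent.ArcTrap

open Complex Set Filter Topology Pool.Agent.LipTrap

theorem line_sign {c : ℝ → ℂ} {a b yP yQ : ℝ} (hab : a < b) (hcc : Continuous c)
    (hl : ∀ t ≤ a, c t = ⟨t, yP⟩) (hr : ∀ t, b ≤ t → c t = ⟨t, yQ⟩) :
    ∃ h : ℂ → ℝ, Continuous h ∧ ∃ B : ℝ,
      (∀ z : ℂ, z.im < -B → h z < 0) ∧ (∀ z : ℂ, B < z.im → 0 < h z) ∧
      (∀ z, h z = 0 → z ∈ range c) := by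
  classical
  have hca : (c a).im = yP := by rw [hl a le_rfl]
  have hcb : (c b).im = yQ := by rw [hr b le_rfl]
  have hl' : ∀ t ≤ a, c t = ⟨t, (c a).im⟩ := fun t ht => by rw [hca]; exact hl t ht
  have hr' : ∀ t, b ≤ t → c t = ⟨t, (c b).im⟩ := fun t ht => by rw [hcb]; exact hr t ht
  have hclosed : IsClosed (range c) := by
    have e : range c = c '' Icc a b ∪ ({z | z.re ≤ a ∧ z.im = yP} ∪ {z | b ≤ z.re ∧ z.im = yQ}) := by
      ext z
      constructor
      · rintro ⟨t, rfl⟩
        rcases le_or_gt t a with h | h
        · right; left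
          rw [hl t h]
          exact ⟨h, rfl⟩
        · rcases le_or_gt b t with h1 | h1
          · right; right
            rw [hr t h1]
            exact ⟨h1, rfl⟩
          · left
            exact ⟨t, ⟨h.le, h1.le⟩, rfl⟩
      · rintro (⟨t, _, rfl⟩ | ⟨h1, h2⟩ | ⟨h1, h2⟩)
        · exact ⟨t, rfl⟩
        · refine ⟨z.re, ?_⟩
          rw [hl _ h1]
          exact Complex.ext rfl h2.symm
        · refine ⟨z.re, ?_⟩
          rw [hr _ h1]
          exact Complex.ext rfl h2.symm
    rw [e]
    refine (isCompact_Icc.image hcc).isClosed.union (IsClosed.union ?_ ?_)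
    · exact (isClosed_le Complex.continuous_re continuous_const).inter
        (isClosed_eq Complex.continuous_im continuous_const)
    · exact (isClosed_le continuous_const Complex.continuous_re).inter
        (isClosed_eq Complex.continuous_im continuous_const)
  obtain ⟨R, hR⟩ := (isCompact_Icc (a := a) (b := b)).exists_bound_of_continuousOn hcc.continuousOn
  set M : ℝ := |R| + |a| + |b| + |yP| + |yQ| + 1 with hM
  have hMR : ∀ t ∈ Icc a b, ‖c t‖ < M := by
    intro t ht
    have := hR t ht
    have := le_abs_self R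
    have := abs_nonneg a
    have := abs_nonneg b
    have := abs_nonneg yP
    have := abs_nonneg yQ
    linarith
  have hbd : ∀ t ∈ Icc a b, -M < (c t).re ∧ (c t).re < M := by
    intro t ht
    have h1 := (Complex.abs_re_le_norm (c t)).trans_lt (hMR t ht)
    exact abs_lt.mp h1
  have hlow : ∀ z ∈ range c, -M < z.im ∧ z.im < M := by
    rintro _ ⟨t, rfl⟩
    rcases le_or_gt t a with h | h
    · rw [hl t h]
      show -M < yP ∧ yP < M
      have := neg_abs_le yP
      have := le_abs_self yP
      have := abs_nonneg R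
      have := abs_nonneg a
      have := abs_nonneg b
      have := abs_nonneg yQ
      constructor <;> linarith
    · rcases le_or_gt b t with h1 | h1
      · rw [hr t h1]
        show -M < yQ ∧ yQ < M
        have := neg_abs_le yQ
        have := le_abs_self yQ
        have := abs_nonneg R
        have := abs_nonneg a
        have := abs_nonneg b
        have := abs_nonneg yP
        constructor <;> linarith
      · have h2 := (Complex.abs_im_le_norm (c t)).trans_lt (hMR t ⟨h.le, h1.le⟩)
        exact abs_lt.mp h2
  have hyPM : -M < yP ∧ yP < M := by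
    have := hlow (c a) ⟨a, rfl⟩
    rwa [hca] at this
  have hdyI : ∀ N i : ℕ, i ≤ 2 ^ N → a + (b - a) * ((i : ℝ) / 2 ^ N) ∈ Icc a b := by
    intro N i hi
    have hba : 0 < b - a := by linarith
    have h2 : (i : ℝ) / 2 ^ N ≤ 1 := by
      rw [div_le_one (by positivity)]
      exact_mod_cast hi
    have h3 : 0 ≤ (i : ℝ) / 2 ^ N := by positivity
    constructor <;> nlinarith
  have e0 : ∀ N, dy c a b N 0 = c a := fun N => by unfold dy; simp
  -- the base point
  set p1 : ℂ := ⟨-M, -M⟩ with hp1
  have hX1 : ∀ N, X (dy c a b N) (2 ^ N) p1 = 1 := by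
    intro N
    rw [X_left (fun i hi => (hbd _ (hdyI N i hi)).1.le), e0, hca]
    exact if_pos hyPM.1
  set Low : Set ℂ := {z | JoinedIn (range c)ᶜ p1 z} with hLow
  have hcompl : IsOpen (range c)ᶜ := hclosed.isOpen_compl
  have hLowo : IsOpen Low := by
    have h1 := hcompl.pathComponentIn p1
    exact h1
  have hup1 : ∀ z : ℂ, M < z.im → z ∉ Low ∧ z ∉ range c := by
    intro z hz2
    constructor
    · intro hz
      have h1 : JoinedIn (range c)ᶜ z ⟨-M, z.im⟩ := by
        apply JoinedIn.of_segment_subset
        intro x hx hx'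
        obtain ⟨θ, hθ, h2, h3⟩ := mem_seg_re hx
        simp only [sub_self, mul_zero, add_zero] at h2 h3
        have := (hlow x hx').2
        linarith
      obtain ⟨N, hN⟩ := X_same hab hcc hl' hr' hclosed (JoinedIn.trans hz h1)
      have h5 : X (dy c a b N) (2 ^ N) (⟨-M, z.im⟩ : ℂ)
          = if z.im < (dy c a b N 0).im then 1 else 0 :=
        X_left (fun i hi => (hbd _ (hdyI N i hi)).1.le)
      rw [hX1, h5, e0, hca, if_neg (not_lt.mpr (by linarith [hyPM.2]))] at hN
      exact one_ne_zero hN
    · intro hz
      have := (hlow z hz).2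
      linarith
  have hdn1 : ∀ z : ℂ, z.im < -M → z ∈ Low ∧ z ∉ range c := by
    intro z hz
    constructor
    · apply JoinedIn.of_segment_subset
      intro x hx hx'
      obtain ⟨θ, hθ, h2, h3⟩ := mem_seg_re hx
      have h4 : x.im ≤ -M := by
        rw [h3]
        simp only [hp1]
        nlinarith [hθ.1, hθ.2]
      have := (hlow x hx').1
      linarith
    · intro hz'
      have := (hlow z hz').1
      linarith
  have hne : (range c).Nonempty := ⟨c 0, 0, rfl⟩
  set h : ℂ → ℝ := fun z => if z ∈ Low then -(Metric.infDist z (range c))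
    else Metric.infDist z (range c) with hh
  refine ⟨h, ?_, M, ?_, ?_, ?_⟩
  · apply Continuous.if
    · intro z hz
      have hzc : z ∈ range c := by
        by_contra hzc
        have h1 : IsOpen {w | JoinedIn (range c)ᶜ z w} := hcompl.pathComponentIn z
        have h2 : z ∈ {w | JoinedIn (range c)ᶜ z w} := JoinedIn.refl hzc
        have h3 : z ∈ closure Low := frontier_subset_closure hz
        obtain ⟨w, hw1, hw2⟩ := mem_closure_iff.mp h3 _ h1 h2
        have h4 : z ∈ Low := JoinedIn.trans hw2 (JoinedIn.symm hw1)
        have h5 : z ∉ interior Low := hz.2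
        rw [hLowo.interior_eq] at h5
        exact h5 h4
      rw [Metric.infDist_zero_of_mem hzc, neg_zero]
    · exact (Metric.continuous_infDist_pt _).neg
    · exact Metric.continuous_infDist_pt _
  · intro z hz
    obtain ⟨h1, h2⟩ := hdn1 z hz
    simp only [hh]
    rw [if_pos h1]
    have := (hclosed.notMem_iff_infDist_pos hne).mp h2
    linarith
  · intro z hz
    obtain ⟨h1, h2⟩ := hup1 z hz
    simp only [hh]
    rw [if_neg h1]
    exact (hclosed.notMem_iff_infDist_pos hne).mp h2
  · intro z hz
    by_contra hzc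
    have h1 := (hclosed.notMem_iff_infDist_pos hne).mp hzc
    simp only [hh] at hz
    split_ifs at hz <;> linarith

end Pool.Agent.ArcTrap
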