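import Pool.Agent.Lib.MP_2fd4e2_co.Arc.LineSign

/-!
The separating function of a graph closed up by an arbitrary path.
-/

set_option autoImplicit false

namespace Pool.Agent.ArcTrap

open Complex Set Filter Topology

/-- the curve: the graph of `f` over `[a, b]` and the path `c` -/
def Jset (f : ℝ → ℝ) (a b : ℝ) (c : ℝ → ℂ) : Set ℂ :=
  {z | (∃ t ∈ Icc a b, c t = z) ∨ (a ≤ z.re ∧ z.re ≤ b ∧ z.im = f z.re)}

theorem cmk' {X : Type*} [TopologicalSpace X] {g1 g2 : X → ℝ} (h1 : Continuous g1)
    (h2 : Continuous g2) : Continuous (fun x => (⟨g1 x, g2 x⟩ : ℂ)) := by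
  have : (fun x => (⟨g1 x, g2 x⟩ : ℂ)) = fun x => ((g1 x : ℝ) : ℂ) + (g2 x : ℂ) * I := by
    funext z
    apply Complex.ext <;> simp
  rw [this]
  fun_prop

/-- **The separating function.** -/
theorem sep {f : ℝ → ℝ} (hf : Continuous f) {a b : ℝ} (hab : a < b) {c : ℝ → ℂ}
    (hcc : Continuous c) (hca : c a = ⟨a, f a⟩) (hcb : c b = ⟨b, f b⟩)
    (hav : ∀ t ∈ Ioo a b, ¬ (a ≤ (c t).re ∧ (c t).re ≤ b ∧ (c t).im = f (c t).re)) :
    ∃ h : ℂ → ℝ, Continuous h ∧ (∀ z, h z = 0 → z ∈ Jset f a b c) ∧
      ∀ᶠ y in 𝓝[>] (0 : ℝ), h ⟨(a + b) / 2, f ((a + b) / 2) + y⟩ < 0 ∧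
        0 < h ⟨(a + b) / 2, f ((a + b) / 2) - y⟩ := by
  set M : ℝ := (a + b) / 2 with hM
  set r : ℝ := (b - a) / 2 with hr
  have hrpos : 0 < r := by rw [hr]; linarith
  have hrne : r ≠ 0 := hrpos.ne'
  set N : ℂ → ℂ := fun z => ⟨(z.re - M) / r, (z.im - f z.re) / r⟩ with hN
  have hNc : Continuous N := by
    rw [hN]
    apply cmk'
    · exact (Complex.continuous_re.sub continuous_const).div_const _
    · exact (Complex.continuous_im.sub (hf.comp Complex.continuous_re)).div_const _
  have hNinj : ∀ z w, N z = N w → z = w := by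
    intro z w h
    have h1 := congrArg Complex.re h
    have h2 := congrArg Complex.im h
    simp only [hN] at h1 h2
    rw [div_left_inj' hrne] at h1 h2
    have h3 : z.re = w.re := by linarith
    rw [h3] at h2
    exact Complex.ext h3 (by linarith)
  -- the clamp
  set cl : ℝ → ℝ := fun t => max (-1) (min 1 t) with hcl
  have hclc : Continuous cl := by rw [hcl]; fun_prop
  have hclI : ∀ t, -1 ≤ cl t ∧ cl t ≤ 1 := fun t =>
    ⟨le_max_left _ _, max_le (by norm_num) (min_le_left _ _)⟩
  have hcl1 : ∀ t ≤ -1, cl t = -1 := by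
    intro t ht
    simp only [hcl]
    rw [min_eq_right (by linarith), max_eq_left ht]
  have hcl2 : ∀ t, 1 ≤ t → cl t = 1 := by
    intro t ht
    simp only [hcl]
    rw [min_eq_left ht, max_eq_right (by norm_num)]
  set s : ℝ → ℝ := fun t => M + r * cl t with hs
  have hsI : ∀ t, s t ∈ Icc a b := by
    intro t
    have h1 := hclI t
    have h2 := mul_le_mul_of_nonneg_left h1.1 hrpos.le
    have h3 := mul_le_mul_of_nonneg_left h1.2 hrpos.le
    have e1 : M - r = a := by rw [hM, hr]; ring
    have e2 : M + r = b := by rw [hM, hr]; ring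
    simp only [hs]
    constructor <;> linarith
  have hN0 : ∀ t ∈ Icc a b, N (c t) ≠ 0 := by
    intro t ht h0
    have h1 := congrArg Complex.re h0
    have h2 := congrArg Complex.im h0
    simp only [hN, Complex.zero_re, Complex.zero_im] at h1 h2
    have h3 : (c t).re = M := by
      rcases div_eq_zero_iff.mp h1 with h | h
      · linarith
      · exact absurd h hrne
    have h4 : (c t).im = f (c t).re := by
      rcases div_eq_zero_iff.mp h2 with h | h
      · linarith
      · exact absurd h hrne
    rcases eq_or_lt_of_le ht.1 with h5 | h5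
    · rw [← h5, hca] at h3
      simp only at h3
      rw [hM] at h3; linarith
    · rcases eq_or_lt_of_le ht.2 with h6 | h6
      · rw [h6, hcb] at h3
        simp only at h3
        rw [hM] at h3; linarith
      · exact hav t ⟨h5, h6⟩ ⟨by rw [h3, hM]; linarith, by rw [h3, hM]; linarith, h4⟩
  set ct : ℝ → ℂ := fun t => (N (c (s t)))⁻¹ + ((t - cl t : ℝ) : ℂ) with hct
  have hctc : Continuous ct := by
    rw [hct]
    apply Continuous.add
    · apply Continuous.inv₀
      · exact hNc.comp (hcc.comp (continuous_const.add (continuous_const.mul hclc)))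
      · intro t
        exact hN0 _ (hsI t)
    · exact Complex.continuous_ofReal.comp (continuous_id.sub hclc)
  have hNa : N (c a) = -1 := by
    rw [hca]
    simp only [hN]
    apply Complex.ext
    · show (a - M) / r = (-1 : ℂ).re
      simp only [Complex.neg_re, Complex.one_re]
      rw [div_eq_iff hrne, hM, hr]; ring
    · show (f a - f a) / r = (-1 : ℂ).im
      simp
  have hNb : N (c b) = 1 := by
    rw [hcb]
    simp only [hN]
    apply Complex.ext
    · show (b - M) / r = (1 : ℂ).re
      simp only [Complex.one_re]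
      rw [div_eq_iff hrne, hM, hr]; ring
    · show (f b - f b) / r = (1 : ℂ).im
      simp
  have hl : ∀ t ≤ -1, ct t = ⟨t, 0⟩ := by
    intro t ht
    have e1 : s t = a := by simp only [hs]; rw [hcl1 t ht, hM, hr]; ring
    simp only [hct]
    rw [e1, hNa, hcl1 t ht]
    apply Complex.ext
    · simp [Complex.inv_re]
    · simp [Complex.inv_im]
  have hrr : ∀ t, 1 ≤ t → ct t = ⟨t, 0⟩ := by
    intro t ht
    have e1 : s t = b := by simp only [hs]; rw [hcl2 t ht, hM, hr]; ring
    simp only [hct]
    rw [e1, hNb, hcl2 t ht]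
    apply Complex.ext
    · simp
    · simp
  obtain ⟨g, hgc, B, hg1, hg2, hg3⟩ := line_sign (show (-1 : ℝ) < 1 by norm_num) hctc hl hrr
  set g' : ℂ → ℝ := fun w => max (-1) (min 1 (g w)) with hg'
  have hg'c : Continuous g' := by
    rw [hg']
    exact continuous_const.max (continuous_const.min hgc)
  have hg'b : ∀ w, ‖g' w‖ ≤ 1 := by
    intro w
    rw [Real.norm_eq_abs, abs_le]
    exact ⟨le_max_left _ _, max_le (by norm_num) (min_le_left _ _)⟩
  have hg'neg : ∀ w, g w < 0 → g' w < 0 := by
    intro w hw
    simp only [hg']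
    exact max_lt (by norm_num) (lt_of_le_of_lt (min_le_right _ _) hw)
  have hg'pos : ∀ w, 0 < g w → 0 < g' w := by
    intro w hw
    simp only [hg']
    exact lt_max_of_lt_right (lt_min (by norm_num) hw)
  have hg'0 : ∀ w, g' w = 0 → g w = 0 := by
    intro w hw
    rcases lt_trichotomy (g w) 0 with h1 | h1 | h1
    · have := hg'neg w h1; linarith
    · exact h1
    · have := hg'pos w h1; linarith
  refine ⟨fun z => ‖N z‖ * g' (N z)⁻¹, ?_, ?_, ?_⟩
  · rw [continuous_iff_continuousAt]
    intro z
    rcases eq_or_ne (N z) 0 with h0 | h0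
    · have e1 : ‖N z‖ * g' (N z)⁻¹ = 0 := by rw [h0]; simp
      rw [ContinuousAt, e1]
      have h1 : Tendsto (fun z => ‖N z‖) (𝓝 z) (𝓝 0) := by
        have := (hNc.norm).tendsto z
        rwa [h0, norm_zero] at this
      refine squeeze_zero_norm (fun w => ?_) h1
      rw [norm_mul, norm_norm]
      calc ‖N w‖ * ‖g' (N w)⁻¹‖ ≤ ‖N w‖ * 1 :=
            mul_le_mul_of_nonneg_left (hg'b _) (norm_nonneg _)
        _ = ‖N w‖ := mul_one _
    · apply ContinuousAt.mul
      · exact hNc.norm.continuousAt
      · exact hg'c.continuousAt.comp (hNc.continuousAt.inv₀ h0)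
  · intro z hz
    rcases eq_or_ne (N z) 0 with h0 | h0
    · right
      have h1 := congrArg Complex.re h0
      have h2 := congrArg Complex.im h0
      simp only [hN, Complex.zero_re, Complex.zero_im] at h1 h2
      have h3 : z.re = M := by
        rcases div_eq_zero_iff.mp h1 with h | h
        · linarith
        · exact absurd h hrne
      have h4 : z.im = f z.re := by
        rcases div_eq_zero_iff.mp h2 with h | h
        · linarith
        · exact absurd h hrne
      exact ⟨by rw [h3, hM]; linarith, by rw [h3, hM]; linarith, h4⟩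
    · rcases mul_eq_zero.mp hz with h1 | h1
      · exact absurd (norm_eq_zero.mp h1) h0
      · obtain ⟨t, ht⟩ := hg3 _ (hg'0 _ h1)
        have key : ∀ x : ℝ, (x ≤ -1 ∨ 1 ≤ x) → ct x = ⟨x, 0⟩ → ct x = (N z)⁻¹ →
            a ≤ z.re ∧ z.re ≤ b ∧ z.im = f z.re := by
          intro x hx hx1 hx2
          have hxne : x ≠ 0 := by rcases hx with h | h <;> [linarith; linarith]
          have h2 : N z = ((x⁻¹ : ℝ) : ℂ) := by
            rw [← inv_inv (N z), ← hx2, hx1]
            have : (⟨x, 0⟩ : ℂ) = (x : ℂ) := rfl
            rw [this, Complex.ofReal_inv]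
          have h3 := congrArg Complex.re h2
          have h4 := congrArg Complex.im h2
          simp only [hN, Complex.ofReal_re, Complex.ofReal_im] at h3 h4
          have h5 : z.im = f z.re := by
            rcases div_eq_zero_iff.mp h4 with h | h
            · linarith
            · exact absurd h hrne
          rw [div_eq_iff hrne] at h3
          have h6 : -1 ≤ x⁻¹ ∧ x⁻¹ ≤ 1 := by
            rcases hx with h | h
            · have h7 : 0 < -x := by linarith
              have h8 : (-x)⁻¹ ≤ 1 := inv_le_one_of_one_le₀ (by linarith)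
              have h9 : 0 < (-x)⁻¹ := inv_pos.mpr h7
              rw [inv_neg] at h8 h9
              constructor <;> linarith
            · have h8 : x⁻¹ ≤ 1 := inv_le_one_of_one_le₀ h
              have h9 : 0 < x⁻¹ := inv_pos.mpr (by linarith)
              constructor <;> linarith
          have h7 := mul_le_mul_of_nonneg_right h6.1 hrpos.le
          have h8 := mul_le_mul_of_nonneg_right h6.2 hrpos.le
          have e1 : M - r = a := by rw [hM, hr]; ring
          have e2 : M + r = b := by rw [hM, hr]; ring
          exact ⟨by linarith, by linarith, h5⟩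
        rcases le_or_gt t (-1) with h2 | h2
        · right
          exact key t (Or.inl h2) (hl t h2) ht
        · rcases le_or_gt 1 t with h3 | h3
          · right
            exact key t (Or.inr h3) (hrr t h3) ht
          · left
            have e1 : cl t = t := by
              simp only [hcl]
              rw [min_eq_right h3.le, max_eq_right h2.le]
            simp only [hct] at ht
            rw [e1, sub_self, Complex.ofReal_zero, add_zero] at ht
            exact ⟨s t, hsI t, hNinj _ _ (inv_injective ht)⟩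
  · set B' : ℝ := |B| + 1 with hB'
    have hB'pos : 0 < B' := by positivity
    have hev : ∀ᶠ y in 𝓝[>] (0 : ℝ), y ∈ Ioo 0 (r / B') :=
      Ioo_mem_nhdsGT (by positivity)
    filter_upwards [hev] with y hy
    have hy0 := hy.1
    have hy1 : B' * y < r := by
      have := hy.2
      rw [lt_div_iff₀ hB'pos] at this
      linarith
    have e1 : N ⟨M, f M + y⟩ = ⟨0, y / r⟩ := by
      simp only [hN]
      apply Complex.ext
      · simp
      · simp
    have e2 : N ⟨M, f M - y⟩ = ⟨0, -(y / r)⟩ := by
      simp only [hN]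
      apply Complex.ext
      · simp
      · simp [neg_div]
    have hyr : 0 < y / r := by positivity
    have e3 : ((⟨0, y / r⟩ : ℂ)⁻¹).im = -(r / y) := by
      rw [Complex.inv_im]
      simp only [Complex.normSq_mk]
      field_simp
      ring
    have e4 : ((⟨0, -(y / r)⟩ : ℂ)⁻¹).im = r / y := by
      rw [Complex.inv_im]
      simp only [Complex.normSq_mk]
      field_simp
      ring
    have h5 : B < r / y := by
      rw [lt_div_iff₀ hy0]
      have := mul_le_mul_of_nonneg_right (le_abs_self B) hy0.le
      have : B' * y = |B| * y + y := by rw [hB']; ring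
      linarith
    have n1 : 0 < ‖(⟨0, y / r⟩ : ℂ)‖ := by
      rw [norm_pos_iff]
      intro h
      have := congrArg Complex.im h
      simp only [Complex.zero_im] at this
      linarith
    have n2 : 0 < ‖(⟨0, -(y / r)⟩ : ℂ)‖ := by
      rw [norm_pos_iff]
      intro h
      have := congrArg Complex.im h
      simp only [Complex.zero_im] at this
      linarith
    constructor
    · show ‖N ⟨M, f M + y⟩‖ * g' (N ⟨M, f M + y⟩)⁻¹ < 0
      rw [e1]
      have h6 := hg'neg _ (hg1 (⟨0, y / r⟩ : ℂ)⁻¹ (by rw [e3]; linarith))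
      nlinarith
    · show 0 < ‖N ⟨M, f M - y⟩‖ * g' (N ⟨M, f M - y⟩)⁻¹
      rw [e2]
      have h6 := hg'pos _ (hg2 (⟨0, -(y / r)⟩ : ℂ)⁻¹ (by rw [e4]; exact h5))
      positivity

end Pool.Agent.ArcTrap
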