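import Pool.Agent.Lib.MP_2fd4e2_co.Lip.Conv

/-!
A continuous line with two horizontal end rays has two sides.
-/

set_option autoImplicit false

namespace Pool.Agent.ArcTrap

open Complex Set Filter Topology Pool.Agent.LipTrap

theorem X_right {v : ℕ → ℂ} {n : ℕ} {p : ℂ} (h : ∀ i ≤ n, (v i).re < p.re) :
    X v n p = if p.im < (v n).im then 1 else 0 := by
  unfold X
  have h1 : ∑ i ∈ Finset.range n, chi (v i) (v (i + 1)) p = 0 := by
    apply Finset.sum_eq_zero
    intro i hi
    have hi' := Finset.mem_range.mp hi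
    have a1 := h i hi'.le
    have a2 := h (i + 1) (by omega)
    unfold chi
    rw [if_neg (fun hh => by linarith [hh.2.1]), if_neg (fun hh => by linarith [hh.2.1])]
  have h2 : rhoL (v 0) p = 0 := by
    unfold rhoL
    rw [if_neg (fun hh => by linarith [hh.1, h 0 (Nat.zero_le _)])]
  rw [h1, h2]
  unfold rhoR
  simp only [h n le_rfl, true_and, zero_add]

theorem track_near' {c : ℝ → ℂ} {a b : ℝ} (hab : a < b) (hcc : Continuous c)
    (hl : ∀ t ≤ a, c t = ⟨t, (c a).im⟩) (hr : ∀ t, b ≤ t → c t = ⟨t, (c b).im⟩)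
    {δ : ℝ} (hδ : 0 < δ) :
    ∀ᶠ N in atTop, ∀ p ∈ track (dy c a b N) (2 ^ N), ∃ t, ‖p - c t‖ < δ := by
  have huc := (isCompact_Icc (a := a) (b := b)).uniformContinuousOn_of_continuous hcc.continuousOn
  obtain ⟨ρ, hρ, hcρ⟩ := Metric.uniformContinuousOn_iff.mp huc δ hδ
  have hlim : Tendsto (fun N : ℕ => (b - a) / 2 ^ N) atTop (𝓝 0) := by
    have h1 : Tendsto (fun N : ℕ => (2 : ℝ) ^ N) atTop atTop :=
      tendsto_pow_atTop_atTop_of_one_lt (by norm_num)
    exact tendsto_const_nhds.div_atTop h1
  filter_upwards [hlim.eventually (gt_mem_nhds hρ)] with N hN p hp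
  have hba : 0 < b - a := by linarith
  have e0 : dy c a b N 0 = c a := by unfold dy; simp
  have e1 : dy c a b N (2 ^ N) = c b := by
    unfold dy
    push_cast
    rw [div_self (by positivity)]
    congr 1; ring
  have hmem : ∀ i : ℕ, i ≤ 2 ^ N → a + (b - a) * ((i : ℝ) / 2 ^ N) ∈ Icc a b := by
    intro i hi
    have h2 : (i : ℝ) / 2 ^ N ≤ 1 := by
      rw [div_le_one (by positivity)]
      exact_mod_cast hi
    have h3 : 0 ≤ (i : ℝ) / 2 ^ N := by positivity
    constructor <;> nlinarith
  rcases hp with ⟨i, hi, hs⟩ | ⟨h1, h2⟩ | ⟨h1, h2⟩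
  · refine ⟨a + (b - a) * (i / 2 ^ N), ?_⟩
    have h1 := norm_sub_le_of_mem_segment hs
    change ‖p - dy c a b N i‖ < _
    refine h1.trans_lt ?_
    unfold dy
    rw [← dist_eq_norm]
    apply hcρ _ (hmem _ hi) _ (hmem _ hi.le)
    rw [Real.dist_eq]
    have h2 : a + (b - a) * (((i + 1 : ℕ) : ℝ) / 2 ^ N) - (a + (b - a) * ((i : ℝ) / 2 ^ N))
        = (b - a) / 2 ^ N := by push_cast; ring
    rw [h2, abs_of_pos (by positivity)]
    exact hN
  · refine ⟨p.re, ?_⟩
    rw [e0] at h1 h2
    have h3 : (c a).re = a := by rw [hl a le_rfl]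
    rw [h3] at h2
    rw [hl _ h2, ← h1]
    simpa using hδ
  · refine ⟨p.re, ?_⟩
    rw [e1] at h1 h2
    have h3 : (c b).re = b := by rw [hr b le_rfl]
    rw [h3] at h2
    rw [hr _ h2, ← h1]
    simpa using hδ

theorem X_same {c : ℝ → ℂ} {a b : ℝ} (hab : a < b) (hcc : Continuous c)
    (hl : ∀ t ≤ a, c t = ⟨t, (c a).im⟩) (hr : ∀ t, b ≤ t → c t = ⟨t, (c b).im⟩)
    (hclosed : IsClosed (range c)) {p q : ℂ} (hpq : JoinedIn (range c)ᶜ p q) :
    ∃ N, X (dy c a b N) (2 ^ N) p = X (dy c a b N) (2 ^ N) q := by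
  obtain ⟨γ, hγ⟩ := hpq
  have hK : IsCompact (range γ) := isCompact_range γ.continuous
  have hK' : IsPreconnected (range γ) := isPreconnected_range γ.continuous
  obtain ⟨δ, hδ, hth⟩ := hK.exists_thickening_subset_open hclosed.isOpen_compl
    (show range γ ⊆ (range c)ᶜ by rintro _ ⟨s, rfl⟩; exact hγ s)
  obtain ⟨N, hN⟩ := (track_near' hab hcc hl hr hδ).exists
  refine ⟨N, X_const hK' ?_ ⟨0, γ.source⟩ ⟨1, γ.target⟩⟩
  intro z hz hz'
  obtain ⟨t, ht⟩ := hN z hz'
  have h2 : c t ∈ Metric.thickening δ (range γ) := by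
    rw [Metric.mem_thickening_iff]
    refine ⟨z, hz, ?_⟩
    rw [dist_comm, dist_eq_norm]
    exact ht
  exact hth h2 ⟨t, rfl⟩

theorem mem_seg_re {z w x : ℂ} (hx : x ∈ segment ℝ z w) :
    ∃ θ ∈ Icc (0 : ℝ) 1, x.re = z.re + θ * (w.re - z.re) ∧ x.im = z.im + θ * (w.im - z.im) := by
  obtain ⟨s, t, hs, ht, hst, rfl⟩ := hx
  refine ⟨t, ⟨ht, by linarith⟩, ?_, ?_⟩
  · simp only [Complex.real_smul, Complex.add_re, Complex.re_ofReal_mul]
    rw [← eq_sub_iff_add_eq] at hst
    rw [hst]; ring
  · simp only [Complex.real_smul, Complex.add_im, Complex.im_ofReal_mul]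
    rw [← eq_sub_iff_add_eq] at hst
    rw [hst]; ring

/-- **The sign function of a line with two end rays.** -/
theorem sign_function {c : ℝ → ℂ} {a b yP yQ : ℝ} (hab : a < b) (hcc : Continuous c)
    (hl : ∀ t ≤ a, c t = ⟨t, yP⟩) (hr : ∀ t, b ≤ t → c t = ⟨t, yQ⟩)
    (hin : ∀ t ∈ Ioo a b, a < (c t).re ∧ (c t).re < b) :
    ∃ h : ℂ → ℝ, Continuous h ∧
      (∀ z : ℂ, (∀ y' ≤ z.im, (⟨z.re, y'⟩ : ℂ) ∉ range c) → h z < 0) ∧
      (∀ z : ℂ, z.re ≤ a → yP < z.im → 0 < h z) ∧
      (∀ z : ℂ, b ≤ z.re → yQ < z.im → 0 < h z) ∧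
      (∀ z, h z = 0 → z ∈ range c) ∧
      (∀ z w, segment ℝ z w ⊆ (range c)ᶜ → 0 < h z → 0 < h w) := by
  classical
  have hca : (c a).im = yP := by rw [hl a le_rfl]
  have hcb : (c b).im = yQ := by rw [hr b le_rfl]
  have hl' : ∀ t ≤ a, c t = ⟨t, (c a).im⟩ := fun t ht => by rw [hca]; exact hl t ht
  have hr' : ∀ t, b ≤ t → c t = ⟨t, (c b).im⟩ := fun t ht => by rw [hcb]; exact hr t ht
  -- left and right parts of the line
  have hleftpart : ∀ z ∈ range c, z.re ≤ a → z.im = yP := by
    rintro _ ⟨t, rfl⟩ hz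
    rcases le_or_gt t a with h | h
    · rw [hl t h]
    · rcases le_or_gt b t with h1 | h1
      · rw [hr t h1] at hz
        have : t ≤ a := hz
        linarith
      · have := (hin t ⟨h, h1⟩).1
        linarith
  have hrightpart : ∀ z ∈ range c, b ≤ z.re → z.im = yQ := by
    rintro _ ⟨t, rfl⟩ hz
    rcases le_or_gt b t with h | h
    · rw [hr t h]
    · rcases le_or_gt t a with h1 | h1
      · rw [hl t h1] at hz
        have : b ≤ t := hz
        linarith
      · have := (hin t ⟨h1, h⟩).2
        linarith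
  have hclosed : IsClosed (range c) := by
    have e : range c = c '' Icc a b ∪ ({z | z.re ≤ a ∧ z.im = yP} ∪ {z | b ≤ z.re ∧ z.im = yQ}) := by
      ext z
      constructor
      · rintro ⟨t, rfl⟩
        rcases le_or_gt t a with h | h
        · right; left
          rw [hl t h]
          exact ⟨h, rfl⟩
        · rcases le_or_gt b t with h1 | h1
          · right; right
            rw [hr t h1]
            exact ⟨h1, rfl⟩
          · left
            exact ⟨t, ⟨h.le, h1.le⟩, rfl⟩
      · rintro (⟨t, _, rfl⟩ | ⟨h1, h2⟩ | ⟨h1, h2⟩)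
        · exact ⟨t, rfl⟩
        · refine ⟨z.re, ?_⟩
          rw [hl _ h1]
          exact Complex.ext rfl h2.symm
        · refine ⟨z.re, ?_⟩
          rw [hr _ h1]
          exact Complex.ext rfl h2.symm
    rw [e]
    refine (isCompact_Icc.image hcc).isClosed.union (IsClosed.union ?_ ?_)
    · exact (isClosed_le Complex.continuous_re continuous_const).inter
        (isClosed_eq Complex.continuous_im continuous_const)
    · exact (isClosed_le continuous_const Complex.continuous_re).inter
        (isClosed_eq Complex.continuous_im continuous_const)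
  obtain ⟨R, hR⟩ := (isCompact_Icc (a := a) (b := b)).exists_bound_of_continuousOn hcc.continuousOn
  set M : ℝ := |R| + |a| + |b| + |yP| + |yQ| + 1 with hM
  have hMR : ∀ t ∈ Icc a b, ‖c t‖ < M := by
    intro t ht
    have := hR t ht
    have := le_abs_self R
    have := abs_nonneg a
    have := abs_nonneg b
    have := abs_nonneg yP
    have := abs_nonneg yQ
    linarith
  have hbd : ∀ t ∈ Icc a b, -M < (c t).re ∧ (c t).re < M := by
    intro t ht
    have h1 := (Complex.abs_re_le_norm (c t)).trans_lt (hMR t ht)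
    exact abs_lt.mp h1
  have hlow : ∀ z ∈ range c, -M < z.im := by
    rintro _ ⟨t, rfl⟩
    rcases le_or_gt t a with h | h
    · rw [hl t h]
      show -M < yP
      have := neg_abs_le yP
      have := abs_nonneg R
      have := abs_nonneg a
      have := abs_nonneg b
      have := abs_nonneg yQ
      linarith
    · rcases le_or_gt b t with h1 | h1
      · rw [hr t h1]
        show -M < yQ
        have := neg_abs_le yQ
        have := abs_nonneg R
        have := abs_nonneg a
        have := abs_nonneg b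
        have := abs_nonneg yP
        linarith
      · have h2 := (Complex.abs_im_le_norm (c t)).trans_lt (hMR t ⟨h.le, h1.le⟩)
        exact (abs_lt.mp h2).1
  have hyPM : -M < yP := by
    have := hlow (c a) ⟨a, rfl⟩
    rwa [hca] at this
  have hdyI : ∀ N i : ℕ, i ≤ 2 ^ N → a + (b - a) * ((i : ℝ) / 2 ^ N) ∈ Icc a b := by
    intro N i hi
    have hba : 0 < b - a := by linarith
    have h2 : (i : ℝ) / 2 ^ N ≤ 1 := by
      rw [div_le_one (by positivity)]
      exact_mod_cast hi
    have h3 : 0 ≤ (i : ℝ) / 2 ^ N := by positivity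
    constructor <;> nlinarith
  have e0 : ∀ N, dy c a b N 0 = c a := fun N => by unfold dy; simp
  have e1 : ∀ N, dy c a b N (2 ^ N) = c b := fun N => by
    unfold dy
    push_cast
    rw [div_self (by positivity)]
    congr 1; ring
  -- the base point
  set p1 : ℂ := ⟨-M, -M⟩ with hp1
  have hX1 : ∀ N, X (dy c a b N) (2 ^ N) p1 = 1 := by
    intro N
    rw [X_left (fun i hi => (hbd _ (hdyI N i hi)).1.le), e0, hca]
    exact if_pos hyPM
  set Low : Set ℂ := {z | JoinedIn (range c)ᶜ p1 z} with hLow
  have hcompl : IsOpen (range c)ᶜ := hclosed.isOpen_compl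
  have hLowo : IsOpen Low := by
    have h1 := hcompl.pathComponentIn p1
    exact h1
  -- points which are not low
  have hup1 : ∀ z : ℂ, z.re ≤ a → yP < z.im → z ∉ Low ∧ z ∉ range c := by
    intro z hz1 hz2
    constructor
    · intro hz
      have h1 : JoinedIn (range c)ᶜ z ⟨min z.re (-M), z.im⟩ := by
        apply JoinedIn.of_segment_subset
        intro x hx hx'
        obtain ⟨θ, hθ, h2, h3⟩ := mem_seg_re hx
        simp only [sub_self, mul_zero, add_zero] at h2 h3
        have h4 : x.re ≤ a := by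
          have := min_le_left z.re (-M)
          nlinarith [hθ.1, hθ.2]
        have := hleftpart x hx' h4
        linarith
      obtain ⟨N, hN⟩ := X_same hab hcc hl' hr' hclosed (JoinedIn.trans hz h1)
      rw [hX1, X_left (fun i hi => (min_le_right _ _).trans (hbd _ (hdyI N i hi)).1.le), e0, hca,
        if_neg (not_lt.mpr hz2.le)] at hN
      exact one_ne_zero hN
    · intro hz
      have := hleftpart z hz hz1
      linarith
  have hup2 : ∀ z : ℂ, b ≤ z.re → yQ < z.im → z ∉ Low ∧ z ∉ range c := by
    intro z hz1 hz2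
    constructor
    · intro hz
      have h1 : JoinedIn (range c)ᶜ z ⟨max z.re M, z.im⟩ := by
        apply JoinedIn.of_segment_subset
        intro x hx hx'
        obtain ⟨θ, hθ, h2, h3⟩ := mem_seg_re hx
        simp only [sub_self, mul_zero, add_zero] at h2 h3
        have h4 : b ≤ x.re := by
          have := le_max_left z.re M
          nlinarith [hθ.1, hθ.2]
        have := hrightpart x hx' h4
        linarith
      obtain ⟨N, hN⟩ := X_same hab hcc hl' hr' hclosed (JoinedIn.trans hz h1)
      have h5 : X (dy c a b N) (2 ^ N) (⟨max z.re M, z.im⟩ : ℂ)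
          = if z.im < (dy c a b N (2 ^ N)).im then 1 else 0 :=
        X_right (fun i hi => (hbd _ (hdyI N i hi)).2.trans_le (le_max_right z.re M))
      rw [hX1, h5, e1, hcb, if_neg (not_lt.mpr hz2.le)] at hN
      exact one_ne_zero hN
    · intro hz
      have := hrightpart z hz hz1
      linarith
  have hne : (range c).Nonempty := ⟨c 0, 0, rfl⟩
  set h : ℂ → ℝ := fun z => if z ∈ Low then -(Metric.infDist z (range c))
    else Metric.infDist z (range c) with hh
  have hpos : ∀ z, z ∉ Low → z ∉ range c → 0 < h z := by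
    intro z h1 h2
    simp only [hh]
    rw [if_neg h1]
    exact (hclosed.notMem_iff_infDist_pos hne).mp h2
  refine ⟨h, ?_, ?_, ?_, ?_, ?_, ?_⟩
  · apply Continuous.if
    · intro z hz
      have hzc : z ∈ range c := by
        by_contra hzc
        have h1 : IsOpen {w | JoinedIn (range c)ᶜ z w} := hcompl.pathComponentIn z
        have h2 : z ∈ {w | JoinedIn (range c)ᶜ z w} := JoinedIn.refl hzc
        have h3 : z ∈ closure Low := frontier_subset_closure hz
        obtain ⟨w, hw1, hw2⟩ := mem_closure_iff.mp h3 _ h1 h2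
        have h4 : z ∈ Low := JoinedIn.trans hw2 (JoinedIn.symm hw1)
        have h5 : z ∉ interior Low := hz.2
        rw [hLowo.interior_eq] at h5
        exact h5 h4
      rw [Metric.infDist_zero_of_mem hzc, neg_zero]
    · exact (Metric.continuous_infDist_pt _).neg
    · exact Metric.continuous_infDist_pt _
  · intro z hz
    have h1 : z ∈ Low := by
      have s1 : JoinedIn (range c)ᶜ p1 ⟨z.re, min z.im (-M)⟩ := by
        apply JoinedIn.of_segment_subset
        intro x hx hx'
        obtain ⟨θ, hθ, h2, h3⟩ := mem_seg_re hx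
        have h4 : x.im ≤ -M := by
          rw [h3]
          have := min_le_right z.im (-M)
          simp only [hp1]
          nlinarith [hθ.1, hθ.2]
        have := hlow x hx'
        linarith
      have s2 : JoinedIn (range c)ᶜ ⟨z.re, min z.im (-M)⟩ z := by
        apply JoinedIn.of_segment_subset
        intro x hx hx'
        obtain ⟨θ, hθ, h2, h3⟩ := mem_seg_re hx
        simp only [sub_self, mul_zero, add_zero] at h2
        have h4 : x.im ≤ z.im := by
          rw [h3]
          have := min_le_left z.im (-M)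
          simp only
          nlinarith [hθ.1, hθ.2]
        apply hz x.im h4
        have : (⟨z.re, x.im⟩ : ℂ) = x := Complex.ext h2.symm rfl
        rw [this]; exact hx'
      exact s1.trans s2
    have h2 : z ∉ range c := hz z.im le_rfl
    simp only [hh]
    rw [if_pos h1]
    have := (hclosed.notMem_iff_infDist_pos hne).mp h2
    linarith
  · intro z h1 h2
    exact hpos z (hup1 z h1 h2).1 (hup1 z h1 h2).2
  · intro z h1 h2
    exact hpos z (hup2 z h1 h2).1 (hup2 z h1 h2).2
  · intro z hz
    by_contra hzc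
    have h1 := (hclosed.notMem_iff_infDist_pos hne).mp hzc
    simp only [hh] at hz
    split_ifs at hz <;> linarith
  · intro z w hs hz
    have hzc : z ∉ range c := hs (left_mem_segment ℝ z w)
    have hwc : w ∉ range c := hs (right_mem_segment ℝ z w)
    have hzl : z ∉ Low := by
      intro h1
      simp only [hh] at hz
      rw [if_pos h1] at hz
      have := Metric.infDist_nonneg (x := z) (s := range c)
      linarith
    apply hpos w _ hwc
    intro hwl
    exact hzl (JoinedIn.trans hwl (JoinedIn.of_segment_subset hs).symm)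

end Pool.Agent.ArcTrap
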